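import Mathlib

set_option autoImplicit false
open Finset Filter

namespace Pool.Agent.H.Har

noncomputable def av {X : Type*} [Fintype X] (f : X → ℝ) : ℝ := (∑ x, f x) / Fintype.card X

open Classical in
noncomputable def ind (p : Prop) : ℝ := if p then 1 else 0

lemma ind_nonneg (p : Prop) : 0 ≤ ind p := by unfold ind; split_ifs <;> norm_num
lemma ind_le_one (p : Prop) : ind p ≤ 1 := by unfold ind; split_ifs <;> norm_num
lemma ind_pos {p : Prop} (h : p) : ind p = 1 := by unfold ind; simp [h]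
lemma ind_neg {p : Prop} (h : ¬ p) : ind p = 0 := by unfold ind; simp [h]
lemma ind_mono {p q : Prop} (h : p → q) : ind p ≤ ind q := by
  by_cases hp : p
  · rw [ind_pos hp, ind_pos (h hp)]
  · rw [ind_neg hp]; exact ind_nonneg _
lemma ind_congr {p q : Prop} (h : p ↔ q) : ind p = ind q := by rw [propext h]
lemma ind_and (p q : Prop) : ind (p ∧ q) = ind p * ind q := by
  by_cases hp : p <;> by_cases hq : q <;> simp [ind, hp, hq]

lemma sum_ind {X : Type*} (s : Finset X) (p : X → Prop) [DecidablePred p] :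
    ∑ x ∈ s, ind (p x) = (#(s.filter p) : ℝ) := by
  rw [card_filter]; push_cast
  refine sum_congr rfl fun x _ => ?_
  unfold ind; congr

section av
variable {X : Type*} [Fintype X]

lemma av_mono {f g : X → ℝ} (h : ∀ x, f x ≤ g x) : av f ≤ av g :=
  div_le_div_of_nonneg_right (sum_le_sum fun x _ => h x) (Nat.cast_nonneg _)

lemma av_nonneg {f : X → ℝ} (h : ∀ x, 0 ≤ f x) : 0 ≤ av f :=
  div_nonneg (sum_nonneg fun x _ => h x) (Nat.cast_nonneg _)

lemma av_sum {ι : Type*} (s : Finset ι) (f : ι → X → ℝ) :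
    av (fun x => ∑ i ∈ s, f i x) = ∑ i ∈ s, av (f i) := by
  unfold av; rw [sum_comm, sum_div]

lemma av_add (f g : X → ℝ) : av (fun x => f x + g x) = av f + av g := by
  unfold av; rw [sum_add_distrib, add_div]

lemma av_mul (c : ℝ) (f : X → ℝ) : av (fun x => c * f x) = c * av f := by
  unfold av; rw [← mul_sum, mul_div_assoc]

lemma av_const [Nonempty X] (c : ℝ) : av (fun _ : X => c) = c := by
  unfold av
  have : (Fintype.card X : ℝ) ≠ 0 := by exact_mod_cast Fintype.card_ne_zero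
  simp only [sum_const, card_univ, nsmul_eq_mul]; field_simp

lemma exists_le_av [Nonempty X] (f : X → ℝ) : ∃ x, f x ≤ av f := by
  obtain ⟨x, -, hx⟩ := exists_min_image univ f univ_nonempty
  refine ⟨x, ?_⟩
  rw [← av_const (X := X) (f x)]
  exact av_mono fun y => hx y (mem_univ _)

lemma av_ind (p : X → Prop) [DecidablePred p] :
    av (fun x => ind (p x)) = (#(univ.filter p) : ℝ) / Fintype.card X := by
  unfold av; rw [sum_ind]

end av

lemma av_prod {ι : Type*} [Fintype ι] [DecidableEq ι] {Y : Type*} [Fintype Y] (f : ι → Y → ℝ) :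
    av (fun r : ι → Y => ∏ i, f i (r i)) = ∏ i, av (f i) := by
  unfold av
  rw [← Fintype.prod_sum (κ := fun _ : ι => Y) f, prod_div_distrib, Fintype.card_fun]
  simp

lemma av_pair {A B : Type*} [Fintype A] [Fintype B] (f : A → ℝ) (g : B → ℝ) :
    av (fun z : A × B => f z.1 * g z.2) = av f * av g := by
  unfold av
  rw [Fintype.sum_prod_type, Fintype.card_prod, div_mul_div_comm, sum_mul_sum]
  push_cast; rfl

/-- one-sided Chernoff bound -/
lemma chern1 {ι : Type*} [Fintype ι] [DecidableEq ι] {Y : Type*} [Fintype Y] [Nonempty Y]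
    (m : ι → ℝ) (E : ι → Y → Prop) (M : ℝ) (hM : 0 < M) (hm0 : ∀ i, 0 ≤ m i) (hm : ∀ i, m i ≤ M)
    (e : ℝ) (he : e = 1 ∨ e = -1) (μ : ℝ) (hμ : μ = ∑ i, m i * av (fun y => ind (E i y))) :
    av (fun r : ι → Y => ind (μ / 6 ≤ e * (∑ i, m i * ind (E i (r i)) - μ))) ≤
      Real.exp (-(μ / (144 * M))) := by
  set l : ℝ := 1 / (12 * M) with hl
  have l0 : 0 < l := by positivity
  set p : ι → ℝ := fun i => av (fun y => ind (E i y)) with hp
  have p0 : ∀ i, 0 ≤ p i := fun i => av_nonneg fun _ => ind_nonneg _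
  have p1 : ∀ i, p i ≤ 1 := fun i => by
    rw [← av_const (X := Y) 1]; exact av_mono fun _ => ind_le_one _
  have e2 : e ^ 2 = 1 := by rcases he with h | h <;> simp [h]
  have ea : |e| = 1 := by rcases he with h | h <;> simp [h]
  have lM : l * M = 1 / 12 := by rw [hl]; field_simp
  have key : ∀ i, av (fun y => Real.exp (l * e * m i * (ind (E i y) - p i))) ≤
      Real.exp (l ^ 2 * M * (m i * p i)) := by
    intro i
    have lm : l * m i ≤ 1 / 12 := by rw [← lM]; exact mul_le_mul_of_nonneg_left (hm i) l0.le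
    have lm0 : 0 ≤ l * m i := mul_nonneg l0.le (hm0 i)
    have h1 : ∀ y, Real.exp (l * e * m i * (ind (E i y) - p i)) ≤
        (1 - l * e * m i * p i + (l * m i) ^ 2 * p i ^ 2) +
          (l * e * m i + (l * m i) ^ 2 * (1 - 2 * p i)) * ind (E i y) := by
      intro y
      have a1 := ind_nonneg (E i y)
      have a2 := ind_le_one (E i y)
      have hx : |l * e * m i * (ind (E i y) - p i)| ≤ 1 := by
        have : l * e * m i * (ind (E i y) - p i) = e * ((l * m i) * (ind (E i y) - p i)) := by ring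
        rw [this, abs_mul, ea, one_mul, abs_mul, abs_of_nonneg lm0]
        have : |ind (E i y) - p i| ≤ 1 := abs_le.2 ⟨by linarith [p1 i], by linarith [p0 i]⟩
        nlinarith [abs_nonneg (ind (E i y) - p i)]
      have h2 := (abs_le.1 (Real.abs_exp_sub_one_sub_id_le hx)).2
      have h3 : ind (E i y) ^ 2 = ind (E i y) := by
        by_cases h : E i y
        · rw [ind_pos h]; ring
        · rw [ind_neg h]; ring
      have h4 : (l * e * m i * (ind (E i y) - p i)) ^ 2 =
          (l * m i) ^ 2 * (ind (E i y) - 2 * p i * ind (E i y) + p i ^ 2) := by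
        have : (l * e * m i * (ind (E i y) - p i)) ^ 2 =
          e ^ 2 * ((l * m i) ^ 2 * (ind (E i y) ^ 2 - 2 * p i * ind (E i y) + p i ^ 2)) := by ring
        rw [this, e2, h3, one_mul]
      rw [h4] at h2
      nlinarith
    refine (av_mono h1).trans ?_
    rw [av_add, av_const, av_mul]
    change _ + _ * p i ≤ _
    have h5 : (l * m i) ^ 2 * p i ≤ l ^ 2 * M * (m i * p i) := by
      have : (l * m i) ^ 2 * p i = l ^ 2 * m i * (m i * p i) := by ring
      rw [this]
      exact mul_le_mul_of_nonneg_right (mul_le_mul_of_nonneg_left (hm i) (by positivity))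
        (mul_nonneg (hm0 i) (p0 i))
    have h6 := Real.add_one_le_exp (l ^ 2 * M * (m i * p i))
    have h7 : 0 ≤ (l * m i) ^ 2 * p i ^ 2 := by positivity
    nlinarith
  have h8 : ∀ r : ι → Y, ind (μ / 6 ≤ e * (∑ i, m i * ind (E i (r i)) - μ)) ≤
      Real.exp (-(l * (μ / 6))) * ∏ i, Real.exp (l * e * m i * (ind (E i (r i)) - p i)) := by
    intro r
    rw [← Real.exp_sum, ← Real.exp_add]
    by_cases h : μ / 6 ≤ e * (∑ i, m i * ind (E i (r i)) - μ)
    · rw [ind_pos h]
      apply Real.one_le_exp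
      have : ∑ i, l * e * m i * (ind (E i (r i)) - p i) =
          l * (e * (∑ i, m i * ind (E i (r i)) - μ)) := by
        rw [hμ, ← sum_sub_distrib, mul_sum, mul_sum]
        exact sum_congr rfl fun i _ => by ring
      rw [this]
      nlinarith
    · rw [ind_neg h]; positivity
  refine (av_mono h8).trans ?_
  rw [av_mul, av_prod (fun i y => Real.exp (l * e * m i * (ind (E i y) - p i)))]
  have h9 : ∏ i, av (fun y => Real.exp (l * e * m i * (ind (E i y) - p i))) ≤
      ∏ i, Real.exp (l ^ 2 * M * (m i * p i)) :=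
    prod_le_prod (fun i _ => av_nonneg fun _ => (Real.exp_pos _).le) fun i _ => key i
  refine (mul_le_mul_of_nonneg_left h9 (Real.exp_pos _).le).trans ?_
  rw [← Real.exp_sum, ← Real.exp_add, ← mul_sum, ← hμ]
  apply le_of_eq; congr 1
  rw [hl]; field_simp; ring

lemma chern {ι : Type*} [Fintype ι] [DecidableEq ι] {Y : Type*} [Fintype Y] [Nonempty Y]
    (m : ι → ℝ) (E : ι → Y → Prop) (M : ℝ) (hM : 0 < M) (hm0 : ∀ i, 0 ≤ m i) (hm : ∀ i, m i ≤ M)
    (μ : ℝ) (hμ : μ = ∑ i, m i * av (fun y => ind (E i y))) :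
    av (fun r : ι → Y => ind (¬ |∑ i, m i * ind (E i (r i)) - μ| ≤ μ / 6)) ≤
      2 * Real.exp (-(μ / (144 * M))) := by
  have h1 := chern1 m E M hM hm0 hm 1 (Or.inl rfl) μ hμ
  have h2 := chern1 m E M hM hm0 hm (-1) (Or.inr rfl) μ hμ
  have h3 : ∀ r : ι → Y, ind (¬ |∑ i, m i * ind (E i (r i)) - μ| ≤ μ / 6) ≤
      ind (μ / 6 ≤ 1 * (∑ i, m i * ind (E i (r i)) - μ)) +
        ind (μ / 6 ≤ -1 * (∑ i, m i * ind (E i (r i)) - μ)) := by
    intro r
    by_cases h : |∑ i, m i * ind (E i (r i)) - μ| ≤ μ / 6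
    · rw [ind_neg (not_not.2 h)]; exact add_nonneg (ind_nonneg _) (ind_nonneg _)
    · rw [ind_pos h]
      rcases lt_abs.1 (not_le.1 h) with a | a
      · rw [ind_pos (p := μ / 6 ≤ 1 * _) (by linarith)]; linarith [ind_nonneg (μ / 6 ≤ -1 * (∑ i, m i * ind (E i (r i)) - μ))]
      · rw [ind_pos (p := μ / 6 ≤ -1 * _) (by linarith)]; linarith [ind_nonneg (μ / 6 ≤ 1 * (∑ i, m i * ind (E i (r i)) - μ))]
  refine (av_mono h3).trans ?_
  rw [av_add]; linarith

section Ex
variable {Ω : ℕ → Type*} [∀ s, Fintype (Ω s)]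

noncomputable def Ex : ℕ → (((s : ℕ) → Ω s) → ℝ) → ((s : ℕ) → Ω s) → ℝ
  | 0, f, ω => f ω
  | m + 1, f, ω => Ex m (fun ω' => av (fun x => f (Function.update ω' m x))) ω

lemma Ex_mono (m : ℕ) : ∀ {f g : ((s : ℕ) → Ω s) → ℝ}, (∀ ω, f ω ≤ g ω) →
    ∀ ω, Ex m f ω ≤ Ex m g ω := by
  induction m with
  | zero => intro f g h ω; exact h ω
  | succ m ih => intro f g h ω; exact ih (fun ω' => av_mono fun x => h _) ω

lemma Ex_mul (m : ℕ) (c : ℝ) : ∀ (f : ((s : ℕ) → Ω s) → ℝ) ω,
    Ex m (fun ω => c * f ω) ω = c * Ex m f ω := by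
  induction m with
  | zero => intro f ω; rfl
  | succ m ih => intro f ω; simp only [Ex, av_mul]; exact ih _ ω

lemma Ex_sum {ι : Type*} (s : Finset ι) (m : ℕ) : ∀ (f : ι → ((s : ℕ) → Ω s) → ℝ) ω,
    Ex m (fun ω => ∑ i ∈ s, f i ω) ω = ∑ i ∈ s, Ex m (f i) ω := by
  induction m with
  | zero => intro f ω; rfl
  | succ m ih => intro f ω; simp only [Ex, av_sum]; exact ih _ ω

lemma exists_le_Ex [∀ s, Nonempty (Ω s)] (m : ℕ) : ∀ (f : ((s : ℕ) → Ω s) → ℝ) ω,
    ∃ ω', f ω' ≤ Ex m f ω := by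
  induction m with
  | zero => intro f ω; exact ⟨ω, le_rfl⟩
  | succ m ih =>
    intro f ω
    obtain ⟨ω', h⟩ := ih (fun ω' => av (fun x => f (Function.update ω' m x))) ω
    obtain ⟨x, hx⟩ := exists_le_av (fun x => f (Function.update ω' m x))
    exact ⟨_, hx.trans h⟩

lemma Ex_tri (E : ℕ → ((s : ℕ) → Ω s) → Prop) (p : ℕ → ℝ) (p0 : ∀ s, 0 ≤ p s)
    (dep : ∀ s m, s < m → ∀ ω x, E s (Function.update ω m x) ↔ E s ω)
    (pr : ∀ s ω, av (fun x => ind (E s (Function.update ω s x))) ≤ p s) (m : ℕ) :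
    ∀ ω, Ex m (fun ω => ind (∀ s < m, E s ω)) ω ≤ ∏ s ∈ range m, p s := by
  induction m with
  | zero => intro ω; simp [Ex, ind]
  | succ m ih =>
    intro ω
    simp only [Ex]
    have h1 : ∀ ω' : (s : ℕ) → Ω s,
        av (fun x => ind (∀ s < m + 1, E s (Function.update ω' m x))) ≤
          p m * ind (∀ s < m, E s ω') := by
      intro ω'
      have : ∀ x, ind (∀ s < m + 1, E s (Function.update ω' m x)) =
          ind (∀ s < m, E s ω') * ind (E m (Function.update ω' m x)) := by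
        intro x
        rw [← ind_and]
        apply ind_congr
        constructor
        · intro h
          exact ⟨fun s hs => (dep s m hs ω' x).1 (h s (by omega)), h m (by omega)⟩
        · rintro ⟨a, b⟩ s hs
          rcases Nat.lt_succ_iff_lt_or_eq.1 hs with h | h
          · exact (dep s m h ω' x).2 (a s h)
          · subst h; exact b
      simp only [this]
      rw [av_mul, mul_comm]
      exact mul_le_mul_of_nonneg_right (pr m ω') (ind_nonneg _)
    refine (Ex_mono m h1 ω).trans ?_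
    rw [Ex_mul, prod_range_succ, mul_comm]
    exact mul_le_mul_of_nonneg_right (ih ω) (p0 m)

lemma exists_lim [∀ s, Nonempty (Ω s)] (Y : ℕ → ((s : ℕ) → Ω s) → ℝ) (Y0 : ∀ n ω, 0 ≤ Y n ω)
    (dep : ∀ n ω ω', (∀ s ≤ n, ω s = ω' s) → Y n ω = Y n ω')
    (hY : ∀ n m ω, n < m → Ex m (Y n) ω ≤ (1 / 2) ^ n) : ∃ ω, ∀ n, Y n ω ≤ 2 := by
  have h1 : ∀ m, ∃ ω, ∀ n < m, Y n ω ≤ 2 := by
    intro m
    obtain ⟨ω, hω⟩ := exists_le_Ex m (fun ω => ∑ n ∈ range m, Y n ω)
      (fun s => Classical.arbitrary _)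
    refine ⟨ω, fun n hn => ?_⟩
    rw [Ex_sum] at hω
    have a1 : Y n ω ≤ ∑ n ∈ range m, Y n ω :=
      single_le_sum (f := fun n => Y n ω) (fun i _ => Y0 i ω) (mem_range.2 hn)
    have a2 := sum_le_sum (s := range m) fun n hn =>
      hY n m (fun s => Classical.arbitrary _) (mem_range.1 hn)
    have a3 := sum_geometric_two_le m
    linarith
  choose w hw using h1
  have h2 : ∀ s, ∃ x, ∀ᶠ m in (hyperfilter ℕ : Filter ℕ), w m s = x := by
    intro s
    obtain ⟨x, hx⟩ := Ultrafilter.eq_pure_of_finite ((hyperfilter ℕ).map fun m => w m s)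
    refine ⟨x, ?_⟩
    have : {x} ∈ ((hyperfilter ℕ).map fun m => w m s) := by rw [hx]; simp
    exact this
  choose ω hω using h2
  refine ⟨ω, fun n => ?_⟩
  have a1 : ∀ᶠ m in (hyperfilter ℕ : Filter ℕ), ∀ s ∈ range (n + 1), w m s = ω s :=
    (eventually_all_finset _).2 fun s _ => hω s
  have a2 : ∀ᶠ m in (hyperfilter ℕ : Filter ℕ), n < m :=
    Nat.hyperfilter_le_atTop (eventually_gt_atTop n)
  obtain ⟨m, b1, b2⟩ := (a1.and a2).exists
  rw [← dep n (w m) ω fun s hs => b1 s (mem_range.2 (by omega))]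
  exact hw m n b2

end Ex

/-- members determined outside `E` -/
lemma det_card {X ι : Type*} [DecidableEq ι] (C : Finset X) (φ : X → Finset ι) (U E : Finset ι)
    (hE : E ⊆ U) (hU : ∀ x ∈ C, φ x ⊆ U) (h : ∀ x ∈ C, ∀ y ∈ C, φ x \ E = φ y \ E → x = y) :
    #C * 2 ^ #E ≤ 2 ^ #U := by
  have h1 : #C ≤ #(U \ E).powerset :=
    card_le_card_of_injOn (fun x => φ x \ E)
      (fun x hx => mem_coe.2 (mem_powerset.2 (sdiff_subset_sdiff (hU x hx) le_rfl)))
      fun x hx y hy e => h x hx y hy e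
  rw [card_powerset] at h1
  calc _ ≤ 2 ^ #(U \ E) * 2 ^ #E := Nat.mul_le_mul_right _ h1
    _ = _ := by rw [← pow_add, card_sdiff_add_card_eq_card hE]

/-- number of small subsets -/
lemma small_card {α : Type*} [DecidableEq α] (B : Finset α) (k : ℕ) (r : ℝ) (hr : 1 ≤ r) :
    (#(B.powerset.filter fun A => #A ≤ k) : ℝ) ≤ (1 + 1 / r) ^ #B * r ^ k := by
  have h := Finset.sum_pow_mul_eq_add_pow (1 / r) 1 B
  rw [add_comm] at h
  rw [← h, sum_mul, ← sum_ind]
  refine sum_le_sum fun A _ => ?_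
  have r0 : 0 < r := by linarith
  by_cases hA : #A ≤ k
  · rw [ind_pos hA, one_pow, mul_one, one_div, inv_pow, inv_mul_eq_div, one_le_div (by positivity)]
    exact pow_le_pow_right₀ hr hA
  · rw [ind_neg hA]; positivity

/-- super-increasing sequences are dissociated -/
lemma dissoc (D : ℕ) (a : ℕ → ℝ) (A : ℝ) (hA : 0 < A)
    (ha : ∀ i < D, |a i - A * (2 / 5) ^ i| ≤ A * (2 / 5) ^ i / 6) (ε : ℕ → ℝ)
    (hε : ∀ i, ε i = 0 ∨ |ε i| = 1) (h : ∑ i ∈ range D, ε i * a i = 0) : ∀ i < D, ε i = 0 := by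
  have tail : ∀ j k, k + j = D → |∑ i ∈ Ico k D, ε i * a i| ≤ 35 / 18 * (A * (2 / 5) ^ k) := by
    intro j
    induction j with
    | zero => intro k hk; simp at hk; subst hk; simp; positivity
    | succ j ih =>
      intro k hk
      rw [sum_eq_sum_Ico_succ_bot (by omega)]
      have b1 := ih (k + 1) (by omega)
      have b2 := abs_le.1 (ha k (by omega))
      have b0 : 0 < A * (2 / 5) ^ k := by positivity
      have b3 : |ε k * a k| ≤ 7 / 6 * (A * (2 / 5) ^ k) := by
        rw [abs_mul]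
        have : |a k| ≤ 7 / 6 * (A * (2 / 5) ^ k) := abs_le.2 ⟨by linarith, by linarith⟩
        rcases hε k with e | e
        · rw [e]; simp; positivity
        · rw [e]; linarith
      have b4 := abs_add_le (ε k * a k) (∑ i ∈ Ico (k + 1) D, ε i * a i)
      rw [pow_succ] at b1
      linarith
  intro i
  induction i using Nat.strong_induction_on with
  | _ i ih =>
    intro hi
    rcases hε i with e | e
    · exact e
    exfalso
    have c1 : ∑ j ∈ range i, ε j * a j = 0 :=
      sum_eq_zero fun j hj => by rw [ih j (mem_range.1 hj) (by have := mem_range.1 hj; omega), zero_mul]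
    rw [← sum_range_add_sum_Ico _ hi.le, c1, zero_add, sum_eq_sum_Ico_succ_bot hi] at h
    have c2 := tail (D - (i + 1)) (i + 1) (by omega)
    have c3 : ε i * a i = -∑ j ∈ Ico (i + 1) D, ε j * a j := by linarith
    have c4 : |ε i * a i| = |∑ j ∈ Ico (i + 1) D, ε j * a j| := by rw [c3, abs_neg]
    rw [abs_mul, e, one_mul] at c4
    have b2 := abs_le.1 (ha i hi)
    have b0 : 0 < A * (2 / 5) ^ i := by positivity
    have := le_abs_self (a i)
    rw [pow_succ] at c2
    linarith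

end Pool.Agent.H.Har
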