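import Pool.Agent.H.MP_916a8b_co.A

set_option autoImplicit false
open Finset Filter
open scoped Classical

namespace Pool.Agent.H.Har

section
variable {V : Type*} [Fintype V] [DecidableEq V]

lemma card_graphs : Fintype.card (SimpleGraph V) = 2 ^ (Fintype.card V).choose 2 := by
  rw [← SimpleGraph.card_edgeFinset_top_eq_card_choose_two, ← card_powerset, ← card_univ]
  apply card_bij (fun G _ => G.edgeFinset)
  · intro G _
    rw [mem_powerset]
    intro e he
    rw [SimpleGraph.mem_edgeFinset] at he ⊢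
    exact SimpleGraph.edgeSet_mono le_top he
  · intro G _ G' _ h
    simpa using h
  · intro s hs
    refine ⟨SimpleGraph.fromEdgeSet s, mem_univ _, ?_⟩
    ext e
    have := @mem_powerset.mp hs e
    simp only [SimpleGraph.mem_edgeFinset, SimpleGraph.edgeSet_top, Set.mem_compl_iff] at this
    simp only [SimpleGraph.mem_edgeFinset, SimpleGraph.edgeSet_fromEdgeSet, Set.mem_sdiff,
      mem_coe]
    tauto

lemma graph_det (C : Finset (SimpleGraph V)) (E : Finset (Sym2 V)) (hE : ∀ e ∈ E, ¬ e.IsDiag)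
    (h : ∀ G ∈ C, ∀ G' ∈ C, (∀ x y, s(x, y) ∉ E → (G.Adj x y ↔ G'.Adj x y)) → G = G') :
    #C * 2 ^ #E ≤ 2 ^ (Fintype.card V).choose 2 := by
  rw [← SimpleGraph.card_edgeFinset_top_eq_card_choose_two]
  refine det_card C (fun G => G.edgeFinset) _ E (fun e he => ?_) (fun G _ e he => ?_)
    fun G hG G' hG' e => h G hG G' hG' fun x y hxy => ?_
  · simpa using hE e he
  · rw [SimpleGraph.mem_edgeFinset] at he ⊢
    exact SimpleGraph.edgeSet_mono le_top he
  · have := congrArg (fun S => s(x, y) ∈ S) e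
    simpa [hxy] using this

def Pres {α β : Type*} (G : SimpleGraph α) (H : SimpleGraph β) (f : α → β) (S : Finset α) : Prop :=
  ∀ x ∈ S, ∀ y ∈ S, (H.Adj (f x) (f y) ↔ G.Adj x y)

def NoCopy (G : SimpleGraph V) (t : ℕ) : Prop :=
  ∀ (A : Finset V) (f : V → V), #A = t → (∀ x ∈ A, f x ∉ A) → ¬ Pres G G f A

def Sep (G : SimpleGraph V) (B : Finset V) (k : ℕ) : Prop :=
  ∀ x y, x ≠ y → ∀ Z ⊆ B, x ∉ Z → y ∉ Z → #(B \ Z) ≤ k → ¬ ∀ z ∈ Z, (G.Adj x z ↔ G.Adj y z)

lemma count_NoCopy (t : ℕ) :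
    #{G : SimpleGraph V | ¬ NoCopy G t} * 2 ^ t.choose 2 ≤
      2 ^ Fintype.card V * Fintype.card V ^ Fintype.card V * 2 ^ (Fintype.card V).choose 2 := by
  have hs : ({G : SimpleGraph V | ¬ NoCopy G t} : Finset _) ⊆
      (univ : Finset (Finset V × (V → V))).biUnion fun q =>
        {G : SimpleGraph V | #q.1 = t ∧ (∀ x ∈ q.1, q.2 x ∉ q.1) ∧ Pres G G q.2 q.1} := by
    intro G hG
    simp only [mem_filter, mem_univ, true_and, NoCopy, mem_biUnion, not_forall, not_not] at hG ⊢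
    obtain ⟨A, f, a, b, c⟩ := hG
    exact ⟨(A, f), a, b, c⟩
  have h1 : ∀ q : Finset V × (V → V),
      #{G : SimpleGraph V | #q.1 = t ∧ (∀ x ∈ q.1, q.2 x ∉ q.1) ∧ Pres G G q.2 q.1} *
        2 ^ t.choose 2 ≤ 2 ^ (Fintype.card V).choose 2 := by
    rintro ⟨A, f⟩
    by_cases hA : #A = t
    swap
    · simp [hA]
    have hc := Sym2.card_image_offDiag A
    rw [hA] at hc
    rw [← hc]
    refine graph_det _ _ (fun e he => ?_) fun G hG G' hG' h => ?_
    · obtain ⟨⟨x, y⟩, h1, rfl⟩ := mem_image.1 he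
      simpa using (mem_offDiag.1 h1).2.2
    · simp only [mem_filter, mem_univ, true_and] at hG hG'
      ext x y
      by_cases hxy : s(x, y) ∈ image Sym2.mk.uncurry A.offDiag
      · obtain ⟨⟨a, b⟩, h1, h2⟩ := mem_image.1 hxy
        obtain ⟨ha, hb, -⟩ := mem_offDiag.1 h1
        have hx : x ∈ A ∧ y ∈ A := by
          rcases Sym2.eq_iff.1 h2 with ⟨rfl, rfl⟩ | ⟨rfl, rfl⟩
          · exact ⟨ha, hb⟩
          · exact ⟨hb, ha⟩
        rw [← hG.2.2 x hx.1 y hx.2, ← hG'.2.2 x hx.1 y hx.2]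
        apply h
        intro h3
        obtain ⟨⟨c, d⟩, h4, h5⟩ := mem_image.1 h3
        obtain ⟨hc, hd, -⟩ := mem_offDiag.1 h4
        rcases Sym2.eq_iff.1 h5 with ⟨e, -⟩ | ⟨-, e⟩
        · exact hG.2.1 x hx.1 (e ▸ hc)
        · exact hG.2.1 x hx.1 (e ▸ hd)
      · exact h x y hxy
  calc _ ≤ (∑ q : Finset V × (V → V),
        #{G : SimpleGraph V | #q.1 = t ∧ (∀ x ∈ q.1, q.2 x ∉ q.1) ∧ Pres G G q.2 q.1}) *
          2 ^ t.choose 2 := Nat.mul_le_mul_right _ ((card_le_card hs).trans card_biUnion_le)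
    _ ≤ ∑ _q : Finset V × (V → V), 2 ^ (Fintype.card V).choose 2 := by
        rw [sum_mul]; exact sum_le_sum fun q _ => h1 q
    _ = _ := by simp

lemma count_Sep (B : Finset V) (k : ℕ) :
    (#{G : SimpleGraph V | ¬ Sep G B k} : ℝ) * 2 ^ #B ≤
      Fintype.card V ^ 2 * ((5 / 4) ^ #B * 8 ^ k) * 2 ^ (Fintype.card V).choose 2 := by
  set Q : Finset ((V × V) × Finset V) := univ ×ˢ (B.powerset.filter fun A => #A ≤ k) with hQ
  have hs : ({G : SimpleGraph V | ¬ Sep G B k} : Finset _) ⊆ Q.biUnion fun q =>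
        {G : SimpleGraph V | q.1.1 ≠ q.1.2 ∧ q.1.1 ∉ B \ q.2 ∧ q.1.2 ∉ B \ q.2 ∧
          ∀ z ∈ B \ q.2, (G.Adj q.1.1 z ↔ G.Adj q.1.2 z)} := by
    intro G hG
    simp only [mem_filter, mem_univ, true_and, Sep, mem_biUnion, not_forall, not_not] at hG ⊢
    obtain ⟨x, y, a, Z, b, c, d, e, f⟩ := hG
    refine ⟨((x, y), B \ Z), by simp [hQ, e], ?_⟩
    rw [Finset.sdiff_sdiff_eq_self b]
    exact ⟨a, c, d, fun z hz => by by_contra h; exact f ⟨z, hz, h⟩⟩
  have h1 : ∀ q ∈ Q,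
      (#{G : SimpleGraph V | q.1.1 ≠ q.1.2 ∧ q.1.1 ∉ B \ q.2 ∧ q.1.2 ∉ B \ q.2 ∧
          ∀ z ∈ B \ q.2, (G.Adj q.1.1 z ↔ G.Adj q.1.2 z)} : ℝ) * 2 ^ #B ≤
        2 ^ k * 2 ^ (Fintype.card V).choose 2 := by
    rintro ⟨⟨x, y⟩, A⟩ hq
    simp only [hQ, mem_product, mem_univ, true_and, mem_filter, mem_powerset] at hq
    by_cases hx : x ≠ y ∧ x ∉ B \ A ∧ y ∉ B \ A
    swap
    · have : ({G : SimpleGraph V | x ≠ y ∧ x ∉ B \ A ∧ y ∉ B \ A ∧
          ∀ z ∈ B \ A, (G.Adj x z ↔ G.Adj y z)} : Finset _) = ∅ := by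
        apply filter_eq_empty_iff.2
        intro G _ h
        exact hx ⟨h.1, h.2.1, h.2.2.1⟩
      simp only [this]; simp
    have hc : #((B \ A).image fun z => s(x, z)) = #(B \ A) := by
      apply card_image_of_injOn
      intro z _ z' _ h
      exact Sym2.congr_right.1 h
    have h2 := graph_det {G : SimpleGraph V | x ≠ y ∧ x ∉ B \ A ∧ y ∉ B \ A ∧
          ∀ z ∈ B \ A, (G.Adj x z ↔ G.Adj y z)} ((B \ A).image fun z => s(x, z))
      (fun e he => by
        obtain ⟨z, h1, rfl⟩ := mem_image.1 he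
        intro h; rw [Sym2.mk_isDiag_iff] at h; exact hx.2.1 (h ▸ h1))
      (fun G hG G' hG' h => by
        simp only [mem_filter, mem_univ, true_and] at hG hG'
        have k1 : ∀ z ∈ B \ A, (G.Adj x z ↔ G'.Adj x z) := by
          intro z hz
          rw [hG.2.2.2 z hz, hG'.2.2.2 z hz]
          apply h
          intro h3
          obtain ⟨w, h4, h5⟩ := mem_image.1 h3
          rcases Sym2.eq_iff.1 h5 with ⟨e, -⟩ | ⟨-, e⟩
          · exact hx.1 e
          · exact hx.2.2 (e ▸ h4)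
        ext a b
        by_cases hab : s(a, b) ∈ (B \ A).image fun z => s(x, z)
        · obtain ⟨w, h4, h5⟩ := mem_image.1 hab
          rcases Sym2.eq_iff.1 h5 with ⟨rfl, rfl⟩ | ⟨rfl, rfl⟩
          · exact k1 _ h4
          · rw [G.adj_comm, G'.adj_comm]; exact k1 _ h4
        · exact h a b hab)
    rw [hc] at h2
    have h3 : #B ≤ #(B \ A) + k := by
      have := card_sdiff_add_card_eq_card hq.1; omega
    have h4 : (2 : ℝ) ^ #B ≤ 2 ^ #(B \ A) * 2 ^ k := by
      rw [← pow_add]; exact pow_le_pow_right₀ (by norm_num) h3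
    have h5 : (#{G : SimpleGraph V | x ≠ y ∧ x ∉ B \ A ∧ y ∉ B \ A ∧
          ∀ z ∈ B \ A, (G.Adj x z ↔ G.Adj y z)} : ℝ) * 2 ^ #(B \ A) ≤
            2 ^ (Fintype.card V).choose 2 := by exact_mod_cast h2
    refine (mul_le_mul_of_nonneg_left h4 (Nat.cast_nonneg _)).trans ?_
    rw [← mul_assoc, mul_comm _ ((2 : ℝ) ^ k)]
    exact mul_le_mul_of_nonneg_left h5 (by positivity)
  have h6 := small_card B k 4 (by norm_num)
  have h7 : (#Q : ℝ) ≤ Fintype.card V ^ 2 * ((5 / 4) ^ #B * 4 ^ k) := by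
    rw [hQ, card_product]; push_cast
    rw [card_univ, Fintype.card_prod]; push_cast
    rw [← sq]
    refine mul_le_mul_of_nonneg_left ?_ (by positivity)
    norm_num at h6 ⊢; exact h6
  calc _ ≤ (∑ q ∈ Q, (#{G : SimpleGraph V | q.1.1 ≠ q.1.2 ∧ q.1.1 ∉ B \ q.2 ∧ q.1.2 ∉ B \ q.2 ∧
          ∀ z ∈ B \ q.2, (G.Adj q.1.1 z ↔ G.Adj q.1.2 z)} : ℝ)) * 2 ^ #B := by
        refine mul_le_mul_of_nonneg_right ?_ (by positivity)
        exact_mod_cast (card_le_card hs).trans card_biUnion_le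
    _ ≤ ∑ _q ∈ Q, 2 ^ k * 2 ^ (Fintype.card V).choose 2 := by
        rw [sum_mul]; exact sum_le_sum h1
    _ ≤ _ := by
        rw [sum_const, nsmul_eq_mul, ← mul_assoc]
        refine mul_le_mul_of_nonneg_right ?_ (by positivity)
        have : (8 : ℝ) ^ k = 4 ^ k * 2 ^ k := by rw [← mul_pow]; norm_num
        rw [this]
        calc _ ≤ Fintype.card V ^ 2 * ((5 / 4) ^ #B * 4 ^ k) * (2 : ℝ) ^ k :=
            mul_le_mul_of_nonneg_right h7 (by positivity)
          _ = _ := by ring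

omit [Fintype V] in
lemma third (W : Finset V) (g : V → V) (hg : Set.InjOn g W) (hm : ∀ x ∈ W, g x ≠ x) :
    ∃ A ⊆ W, #W ≤ 3 * #A ∧ ∀ x ∈ A, g x ∉ A := by
  obtain ⟨A, hA, hmax⟩ := exists_max_image (W.powerset.filter fun A => ∀ x ∈ A, g x ∉ A) card
    ⟨∅, by simp⟩
  simp only [mem_filter, mem_powerset] at hA hmax
  refine ⟨A, hA.1, ?_, hA.2⟩
  have h1 : W ⊆ A ∪ (A.image g ∪ W.filter fun x => g x ∈ A) := by
    intro x hx
    by_contra hn
    simp only [mem_union, mem_image, mem_filter, not_or, not_exists, not_and] at hn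
    have := hmax (insert x A) ⟨insert_subset hx hA.1, fun y hy hy' => by
      rcases mem_insert.1 hy with rfl | hy
      · rcases mem_insert.1 hy' with e | e
        · exact hm _ hx e
        · exact hn.2.2 hx e
      · rcases mem_insert.1 hy' with e | e
        · exact hn.2.1 y hy e
        · exact hA.2 y hy e⟩
    rw [card_insert_of_notMem hn.1] at this
    omega
  have h2 : #(W.filter fun x => g x ∈ A) ≤ #A :=
    card_le_card_of_injOn g (fun x hx => (mem_filter.1 hx).2)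
      (hg.mono fun x hx => (mem_filter.1 hx).1)
  have h3 := (card_le_card h1).trans (card_union_le _ _)
  have h4 := card_union_le (A.image g) (W.filter fun x => g x ∈ A)
  have h5 := card_image_le (s := A) (f := g)
  omega

lemma moves {G : SimpleGraph V} {t : ℕ} (hG : NoCopy G t) (W : Finset V) (g : V → V)
    (hg : Set.InjOn g W) (hm : ∀ x ∈ W, g x ≠ x) (hp : Pres G G g W) : #W ≤ 3 * t := by
  obtain ⟨A, a, b, c⟩ := third W g hg hm
  by_contra h
  obtain ⟨A', d, e⟩ := exists_subset_card_eq (s := A) (n := t) (by omega)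
  exact hG A' g e (fun x hx hx' => c x (d hx) (d hx'))
    fun x hx y hy => hp x (a (d hx)) y (a (d hy))

lemma overlap {G H : SimpleGraph V} {t : ℕ} (hG : NoCopy G t) (S S' : Finset V) (f f' : V → V)
    (hf : Set.InjOn f S) (hp : Pres G H f S) (hp' : Pres G H f' S') :
    #(S.filter fun x => ∃ y ∈ S', f' y = f x ∧ y ≠ x) ≤ 3 * t := by
  set W := S.filter fun x => ∃ y ∈ S', f' y = f x ∧ y ≠ x with hW
  have : ∀ x, ∃ y, x ∈ W → y ∈ S' ∧ f' y = f x ∧ y ≠ x := by
    intro x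
    by_cases hx : x ∈ W
    · obtain ⟨y, hy⟩ := (mem_filter.1 hx).2
      exact ⟨y, fun _ => hy⟩
    · exact ⟨x, fun h => absurd h hx⟩
  choose g hg using this
  refine moves hG W g (fun x hx y hy e => ?_) (fun x hx => (hg x hx).2.2) fun x hx y hy => ?_
  · apply hf (mem_filter.1 hx).1 (mem_filter.1 hy).1
    rw [← (hg x hx).2.1, ← (hg y hy).2.1, e]
  · rw [← hp' _ (hg x hx).1 _ (hg y hy).1, (hg x hx).2.1, (hg y hy).2.1]
    exact hp x (mem_filter.1 hx).1 y (mem_filter.1 hy).1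

def Emb (G H : SimpleGraph V) (S : Finset V) : Prop := ∃ f : V → V, Set.InjOn f S ∧ Pres G H f S

lemma recon {G H : SimpleGraph V} {t b w : ℕ} (hG : NoCopy G t) (col : V → Fin b) (i₀ : Fin b)
    (hw : ∀ i, #{x | col x = i} + 2 ≤ w) (hS : Sep G {x | col x = i₀} (12 * b ^ 2 * t + 2))
    (hE : ∀ S, #S ≤ w → Emb G H S) : Nonempty (G ≃g H) := by
  have hE' : ∀ S : Finset V, ∃ f : V → V, #S ≤ w → Set.InjOn f S ∧ Pres G H f S := by
    intro S
    by_cases h : #S ≤ w
    · obtain ⟨f, hf⟩ := hE S h; exact ⟨f, fun _ => hf⟩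
    · exact ⟨id, fun h' => absurd h' h⟩
  choose e he using hE'
  set B : Fin b → Finset V := fun i => {x | col x = i} with hB
  have hBw : ∀ i, #(B i) ≤ w := fun i => by have := hw i; simp only [hB]; omega
  set F : V → V := fun x => e (B (col x)) x with hF
  have ov : ∀ S, #S ≤ w → #(S.filter fun x => ∃ y, F y = e S x ∧ y ≠ x) ≤ b * (3 * t) := by
    intro S hS
    have : (S.filter fun x => ∃ y, F y = e S x ∧ y ≠ x) ⊆ univ.biUnion fun i : Fin b =>
        S.filter fun x => ∃ y ∈ B i, e (B i) y = e S x ∧ y ≠ x := by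
      intro x hx
      obtain ⟨a, y, c, d⟩ := mem_filter.1 hx
      exact mem_biUnion.2 ⟨col y, mem_univ _, mem_filter.2 ⟨a, y, by simp [hB], c, d⟩⟩
    refine (card_le_card this).trans (card_biUnion_le.trans ?_)
    refine (sum_le_sum fun i _ => overlap hG S (B i) (e S) (e (B i)) (he S hS).1 (he S hS).2
      (he _ (hBw i)).2).trans (by simp)
  set U : Finset V := {x | ∃ y, F y = F x ∧ y ≠ x} with hU
  have hUc : #U ≤ b * (b * (3 * t)) := by
    have : U ⊆ univ.biUnion fun i : Fin b =>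
        (B i).filter fun x => ∃ y, F y = e (B i) x ∧ y ≠ x := by
      intro x hx
      obtain ⟨-, y, c, d⟩ := mem_filter.1 hx
      exact mem_biUnion.2 ⟨col x, mem_univ _, mem_filter.2 ⟨by simp [hB], y, c, d⟩⟩
    refine (card_le_card this).trans (card_biUnion_le.trans ?_)
    exact (sum_le_sum fun i _ => ov _ (hBw i)).trans (by simp)
  have hC : #((univ.image F)ᶜ) ≤ #U := by
    have h1 : #(Uᶜ) ≤ #(univ.image F) :=
      card_le_card_of_injOn F (fun x _ => by simp) fun x hx y _ h => by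
        by_contra hne
        exact (mem_compl.1 hx) (mem_filter.2 ⟨mem_univ _, y, h.symm, fun h' => hne h'.symm⟩)
    rw [card_compl] at h1 ⊢
    have := card_le_univ U
    omega
  have b1 : 1 ≤ b := Fin.pos i₀
  have exc : ∀ S, #S ≤ w → #(S.filter fun x => e S x ≠ F x) ≤ 6 * b ^ 2 * t := by
    intro S hS
    have h1 : (S.filter fun x => e S x ≠ F x) ⊆ (S.filter fun x => e S x ∈ (univ.image F)ᶜ) ∪
        S.filter fun x => ∃ y, F y = e S x ∧ y ≠ x := by
      intro x hx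
      obtain ⟨a, c⟩ := mem_filter.1 hx
      by_cases h : e S x ∈ (univ.image F)ᶜ
      · exact mem_union_left _ (mem_filter.2 ⟨a, h⟩)
      · simp only [mem_compl, not_not, mem_image, mem_univ, true_and] at h
        obtain ⟨y, hy⟩ := h
        exact mem_union_right _ (mem_filter.2 ⟨a, y, hy, fun h' => c (by rw [← hy, h'])⟩)
    have h2 : #(S.filter fun x => e S x ∈ (univ.image F)ᶜ) ≤ #((univ.image F)ᶜ) :=
      card_le_card_of_injOn (e S) (fun x hx => (mem_filter.1 hx).2)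
        ((he S hS).1.mono fun x hx => (mem_filter.1 hx).1)
    have h3 := (card_le_card h1).trans (card_union_le _ _)
    have h4 := ov S hS
    have h5 : b * (3 * t) ≤ b * (b * (3 * t)) := Nat.mul_le_mul_left _ (Nat.le_mul_of_pos_left _ b1)
    have h6 : 6 * b ^ 2 * t = 2 * (b * (b * (3 * t))) := by ring
    omega
  have key : ∀ S S' x y, #S ≤ w → #S' ≤ w → B i₀ ⊆ S → B i₀ ⊆ S' → x ∈ S → y ∈ S' →
      e S x = e S' y → x = y := by
    intro S S' x y h1 h2 h3 h4 h5 h6 h7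
    by_contra hne
    set X := ((S.filter fun x => e S x ≠ F x) ∪ S'.filter fun x => e S' x ≠ F x) ∪ {x, y} with hX
    refine hS x y hne (B i₀ \ X) sdiff_subset (by simp [hX]) (by simp [hX]) ?_ fun z hz => ?_
    · have a1 : B i₀ \ (B i₀ \ X) ⊆ X := by
        intro z hz
        by_contra h
        exact (mem_sdiff.1 hz).2 (mem_sdiff.2 ⟨(mem_sdiff.1 hz).1, h⟩)
      have a2 := card_union_le ((S.filter fun x => e S x ≠ F x) ∪ S'.filter fun x => e S' x ≠ F x)
        ({x, y} : Finset V)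
      have a3 := card_union_le (S.filter fun x => e S x ≠ F x) (S'.filter fun x => e S' x ≠ F x)
      have a4 := exc S h1
      have a5 := exc S' h2
      have a6 : #({x, y} : Finset V) ≤ 2 := card_le_two
      have a7 := card_le_card a1
      change #(B i₀ \ (B i₀ \ X)) ≤ _
      have : 12 * b ^ 2 * t = 6 * b ^ 2 * t + 6 * b ^ 2 * t := by ring
      rw [← hX] at a2
      omega
    · obtain ⟨z1, z2⟩ := mem_sdiff.1 hz
      simp only [hX, mem_union, mem_filter, not_or, not_and, not_not] at z2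
      rw [← (he S h1).2 x h5 z (h3 z1), ← (he S' h2).2 y h6 z (h4 z1), h7, z2.1.1 (h3 z1),
        z2.1.2 (h4 z1)]
  have c1 : ∀ x, #(insert x (B i₀)) ≤ w := fun x => by
    have := card_insert_le x (B i₀)
    have : #(B i₀) + 2 ≤ w := hw i₀
    omega
  have c2 : ∀ x y, #(insert x (insert y (B i₀))) ≤ w := fun x y => by
    have := card_insert_le y (B i₀); have := card_insert_le x (insert y (B i₀))
    have : #(B i₀) + 2 ≤ w := hw i₀
    omega
  set φ : V → V := fun x => e (insert x (B i₀)) x with hφ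
  have inj : Function.Injective φ := fun x y h =>
    key _ _ x y (c1 x) (c1 y) (subset_insert _ _) (subset_insert _ _) (mem_insert_self _ _)
      (mem_insert_self _ _) h
  have bij := Finite.injective_iff_bijective.1 inj
  have ag : ∀ S x, #S ≤ w → B i₀ ⊆ S → x ∈ S → e S x = φ x := by
    intro S x h1 h2 h3
    obtain ⟨y, hy⟩ := bij.2 (e S x)
    have := key S _ x y h1 (c1 y) h2 (subset_insert _ _) h3 (mem_insert_self _ _) hy.symm
    rw [← hy, this]
  refine ⟨⟨Equiv.ofBijective φ bij, fun {x y} => ?_⟩⟩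
  have hs : B i₀ ⊆ insert x (insert y (B i₀)) := (subset_insert _ _).trans (subset_insert _ _)
  simp only [Equiv.ofBijective_apply]
  rw [← ag _ x (c2 x y) hs (by simp), ← ag _ y (c2 x y) hs (by simp)]
  exact (he _ (c2 x y)).2 x (by simp) y (by simp)

end

end Pool.Agent.H.Har
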