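import Pool.Agent.H.MP_916a8b_co.B

set_option autoImplicit false
open Finset Filter
open scoped Classical

namespace Pool.Agent.H.Har

abbrev J (s : ℕ) := Set (SimpleGraph (Fin s))

def typ (s : ℕ) {α : Type*} (G : SimpleGraph α) (S : Set α) : J s :=
  {K | ∃ f : Fin s → α, Function.Injective f ∧ Set.range f = S ∧ K = G.comap f}

lemma typ_comap (s : ℕ) {α β : Type*} (G : SimpleGraph α) (f : β → α) (hf : Function.Injective f)
    (A : Set β) : typ s (G.comap f) A = typ s G (f '' A) := by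
  ext K
  constructor
  · rintro ⟨g, a, b, c⟩
    exact ⟨f ∘ g, hf.comp a, by rw [Set.range_comp, b], by rw [c]; rfl⟩
  · rintro ⟨g, a, b, c⟩
    have : ∀ x, ∃ y, y ∈ A ∧ f y = g x := fun x => by
      have : g x ∈ f '' A := b ▸ Set.mem_range_self x
      exact this
    choose g' h1 h2 using this
    have e : f ∘ g' = g := funext h2
    refine ⟨g', fun x y h => a (by rw [← h2, ← h2, h]), ?_, by rw [c, ← e]; rfl⟩
    apply hf.image_injective
    rw [← Set.range_comp, e, b]

lemma typ_nonempty {s : ℕ} {α : Type*} (G : SimpleGraph α) (S : Finset α) (h : #S = s) :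
    (typ s G S).Nonempty := by
  let e := (S.equivFinOfCardEq h).symm
  refine ⟨G.comap fun i => (e i : α), fun i => (e i : α), Subtype.val_injective.comp e.injective,
    ?_, rfl⟩
  ext x
  constructor
  · rintro ⟨i, rfl⟩; exact (e i).2
  · intro hx; exact ⟨e.symm ⟨x, hx⟩, by simp⟩

lemma typ_card {s : ℕ} {α : Type*} (G : SimpleGraph α) (S : Finset α)
    (h : (typ s G S).Nonempty) : #S = s := by
  obtain ⟨K, f, a, b, -⟩ := h
  have : S = univ.image f := by
    apply coe_injective; rw [← b]; simp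
  rw [this, card_image_of_injective _ a]; simp

lemma typ_emb {s : ℕ} {α : Type*} (G H : SimpleGraph α) (S T : Finset α) (h : #S = s)
    (e : typ s G S = typ s H T) : ∃ f : α → α, Set.InjOn f S ∧ (∀ x ∈ S, f x ∈ T) ∧ Pres G H f S := by
  obtain ⟨K, hK⟩ := typ_nonempty G S h
  have hK' := hK
  rw [e] at hK'
  obtain ⟨f, a, b, c⟩ := hK
  obtain ⟨g, a', b', c'⟩ := hK'
  have m : ∀ x ∈ S, ∃ i, f i = x := fun x hx => by
    have : x ∈ Set.range f := b ▸ hx
    exact this
  refine ⟨Function.extend f g id, fun x hx y hy h => ?_, fun x hx => ?_, fun x hx y hy => ?_⟩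
  · obtain ⟨i, rfl⟩ := m x hx
    obtain ⟨j, rfl⟩ := m y hy
    rw [a.extend_apply, a.extend_apply] at h
    rw [a' h]
  · obtain ⟨i, rfl⟩ := m x hx
    rw [a.extend_apply]
    have : g i ∈ (T : Set α) := b' ▸ Set.mem_range_self i
    exact this
  · obtain ⟨i, rfl⟩ := m x hx
    obtain ⟨j, rfl⟩ := m y hy
    rw [a.extend_apply, a.extend_apply]
    have : (H.comap g).Adj i j ↔ (G.comap f).Adj i j := by rw [← c, ← c']
    exact this

noncomputable def rep {s : ℕ} (τ : J s) : SimpleGraph (Fin s) :=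
  if h : τ.Nonempty then h.some else ⊥

noncomputable def sub (v : ℕ) {s : ℕ} (τ : J s) (ρ : Finset (Fin s)) : J v := typ v (rep τ) ρ

lemma sub_spec (v : ℕ) {s : ℕ} {α : Type*} (G : SimpleGraph α) (S : Finset α) (h : #S = s) :
    ∃ f : Fin s → α, Function.Injective f ∧ Set.range f = S ∧
      ∀ ρ, sub v (typ s G S) ρ = typ v G (f '' ρ) := by
  have hn := typ_nonempty G S h
  obtain ⟨f, a, b, c⟩ := hn.some_mem
  refine ⟨f, a, b, fun ρ => ?_⟩
  rw [sub, rep, dif_pos hn, c, typ_comap _ _ _ a]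

lemma sub_out (v : ℕ) {s : ℕ} {α : Type*} (G : SimpleGraph α) (S : Finset α) (h : #S = s)
    (ρ : Finset (Fin s)) : ∃ W : Finset α, sub v (typ s G S) ρ = typ v G W := by
  obtain ⟨f, a, b, c⟩ := sub_spec v G S h
  exact ⟨ρ.image f, by rw [c]; simp⟩

lemma sub_in (v : ℕ) {s : ℕ} {α : Type*} (G : SimpleGraph α) (S : Finset α) (h : #S = s)
    (W : Finset α) (hW : W ⊆ S) (hv : #W = v) :
    ∃ ρ : Finset (Fin s), #ρ = v ∧ sub v (typ s G S) ρ = typ v G W := by
  obtain ⟨f, a, b, c⟩ := sub_spec v G S h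
  have e : (univ.filter fun i => f i ∈ W).image f = W := by
    ext x
    simp only [mem_image, mem_filter, mem_univ, true_and]
    constructor
    · rintro ⟨i, h1, rfl⟩; exact h1
    · intro hx
      have : x ∈ Set.range f := b ▸ hW hx
      obtain ⟨i, rfl⟩ := this
      exact ⟨i, hx, rfl⟩
  refine ⟨univ.filter fun i => f i ∈ W, ?_, ?_⟩
  · rw [← hv, ← card_image_of_injective _ a, e]
  · rw [c, ← coe_image, e]

abbrev Lab (L : ℕ) := Σ i : Fin L, Fin (2 ^ (i : ℕ) * 5 ^ (L - i))
abbrev Sub (s v : ℕ) := {ρ : Finset (Fin s) // #ρ = v}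

lemma lab_card (L : ℕ) : Fintype.card (Lab L) ≤ L * 5 ^ L := by
  rw [Fintype.card_sigma]
  refine (sum_le_sum (g := fun _ => 5 ^ L) fun i _ => ?_).trans (by simp)
  rw [Fintype.card_fin]
  calc _ ≤ 5 ^ (i : ℕ) * 5 ^ (L - i) := Nat.mul_le_mul_right _ (Nat.pow_le_pow_left (by norm_num) _)
    _ = _ := by rw [← pow_add]; congr 1; omega

lemma lab_av (L i : ℕ) (hi : i < L) :
    av (fun z : Lab L => ind ((z.1 : ℕ) = i)) = 5 ^ L / Fintype.card (Lab L) * (2 / 5) ^ i := by
  unfold av
  rw [Fintype.sum_sigma, sum_eq_single ⟨i, hi⟩]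
  · simp only [ind_pos, sum_const, card_univ, Fintype.card_fin, nsmul_eq_mul, mul_one]
    push_cast
    have : (5 : ℝ) ^ L = 5 ^ i * 5 ^ (L - i) := by rw [← pow_add]; congr 1; omega
    rw [this, div_pow]; field_simp
  · intro j _ hj
    have : (j : ℕ) ≠ i := fun h => hj (Fin.ext h)
    simp [ind_neg this]
  · simp

lemma lab_ne (L : ℕ) (h : 1 ≤ L) : Nonempty (Lab L) := ⟨⟨⟨0, h⟩, ⟨0, by positivity⟩⟩⟩

lemma sub_ne (s v : ℕ) (h : v ≤ s) : Nonempty (Sub s v) := by
  obtain ⟨ρ, -, a⟩ := exists_subset_card_eq (s := (univ : Finset (Fin s))) (n := v) (by simpa)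
  exact ⟨⟨ρ, a⟩⟩

noncomputable def key {L s v : ℕ} (r : J s → Lab L × Sub s v) (τ : J s) : Fin L × J v :=
  ((r τ).1.1, sub v τ (r τ).2)

noncomputable def cnt {L s v n : ℕ} (r : J s → Lab L × Sub s v) (G : SimpleGraph (Fin n))
    (σ : J v) (i : ℕ) : ℕ :=
  #{S : Finset (Fin n) | #S = s ∧ ((key r (typ s G S)).1 : ℕ) = i ∧ (key r (typ s G S)).2 = σ}

noncomputable def mult (s : ℕ) {n : ℕ} (G : SimpleGraph (Fin n)) (τ : J s) : ℕ :=
  #{S : Finset (Fin n) | #S = s ∧ typ s G S = τ}

lemma sum_mult (s : ℕ) {n : ℕ} (G : SimpleGraph (Fin n)) (F : J s → ℝ) :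
    ∑ τ, (mult s G τ : ℝ) * F τ = ∑ S ∈ {S : Finset (Fin n) | #S = s}, F (typ s G S) := by
  rw [← sum_fiberwise (s := {S : Finset (Fin n) | #S = s}) (fun S => typ s G S)]
  refine sum_congr rfl fun τ _ => ?_
  rw [sum_congr rfl (g := fun _ => F τ) fun S hS => by rw [(mem_filter.1 hS).2]]
  rw [sum_const, nsmul_eq_mul, filter_filter, mult]

noncomputable def coef (L s v : ℕ) {n : ℕ} (G : SimpleGraph (Fin n)) (σ : J v) : ℝ :=
  5 ^ L / Fintype.card (Lab L) *
    ∑ τ, (mult s G τ : ℝ) * av (fun ρ : Sub s v => ind (sub v τ ρ = σ))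

lemma coef_ge (L s v : ℕ) (hL : 1 ≤ L) (hv : v ≤ s) {n : ℕ} (hs : s ≤ n) (G : SimpleGraph (Fin n))
    (W : Finset (Fin n)) (hW : #W = v) :
    (n.choose s : ℝ) / (L * n.choose v) ≤ coef L s v G (typ v G W) := by
  have := lab_ne L hL
  have c0 : (0 : ℝ) < Fintype.card (Lab L) := by exact_mod_cast Fintype.card_pos
  have L0 : (0 : ℝ) < L := by exact_mod_cast hL
  have c1 : (1 : ℝ) / L ≤ 5 ^ L / Fintype.card (Lab L) := by
    rw [div_le_div_iff₀ L0 c0, one_mul, mul_comm]
    exact_mod_cast lab_card L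
  have s0 : (0 : ℝ) < s.choose v := by exact_mod_cast Nat.choose_pos hv
  have n0 : (0 : ℝ) < n.choose v := by exact_mod_cast Nat.choose_pos (hv.trans hs)
  have c2 : ((n - v).choose (s - v) : ℝ) / s.choose v ≤
      ∑ τ, (mult s G τ : ℝ) * av (fun ρ : Sub s v => ind (sub v τ ρ = typ v G W)) := by
    rw [sum_mult]
    have h1 : #((powersetCard (s - v) Wᶜ).image fun A => A ∪ W) = (n - v).choose (s - v) := by
      rw [card_image_of_injOn, card_powersetCard, card_compl, Fintype.card_fin, hW]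
      intro A hA B hB e
      have a1 : Disjoint A W := by
        rw [← subset_compl_iff_disjoint_right]; exact (mem_powersetCard.1 hA).1
      have a2 : Disjoint B W := by
        rw [← subset_compl_iff_disjoint_right]; exact (mem_powersetCard.1 hB).1
      have e' : A ∪ W = B ∪ W := e
      rw [← union_sdiff_cancel_right a1, ← union_sdiff_cancel_right a2, e']
    have h2 : ∀ S ∈ (powersetCard (s - v) Wᶜ).image fun A => A ∪ W, #S = s ∧ W ⊆ S := by
      intro S hS
      obtain ⟨A, hA, rfl⟩ := mem_image.1 hS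
      have a1 : Disjoint A W := by
        rw [← subset_compl_iff_disjoint_right]; exact (mem_powersetCard.1 hA).1
      refine ⟨?_, subset_union_right⟩
      rw [card_union_of_disjoint a1, (mem_powersetCard.1 hA).2, hW]; omega
    calc _ = ∑ _S ∈ (powersetCard (s - v) Wᶜ).image fun A => A ∪ W, (1 : ℝ) / s.choose v := by
          rw [sum_const, h1, nsmul_eq_mul, mul_one_div]
      _ ≤ ∑ S ∈ (powersetCard (s - v) Wᶜ).image fun A => A ∪ W,
            av (fun ρ : Sub s v => ind (sub v (typ s G S) ρ = typ v G W)) := by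
          refine sum_le_sum fun S hS => ?_
          obtain ⟨ρ, a, b⟩ := sub_in v G S (h2 S hS).1 W (h2 S hS).2 hW
          rw [av_ind, Fintype.card_finset_len, Fintype.card_fin]
          refine div_le_div_of_nonneg_right ?_ s0.le
          exact Nat.one_le_cast.2 (card_pos.2 ⟨(⟨ρ, a⟩ : Sub s v), mem_filter.2 ⟨mem_univ _, b⟩⟩)
      _ ≤ _ := sum_le_sum_of_subset_of_nonneg (fun S hS => by simpa using (h2 S hS).1)
          fun _ _ _ => av_nonneg fun _ => ind_nonneg _
  have c3 : (n.choose s : ℝ) * s.choose v = n.choose v * (n - v).choose (s - v) := by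
    exact_mod_cast Nat.choose_mul (n := n) hv
  have c4 : (n.choose s : ℝ) / (L * n.choose v) = 1 / L * (((n - v).choose (s - v) : ℝ) / s.choose v) := by
    field_simp; linarith
  rw [c4, coef]
  exact mul_le_mul c1 c2 (by positivity) (by positivity)

lemma cnt_dev (L s v : ℕ) (hL : 1 ≤ L) (hv : v ≤ s) {n : ℕ} (G : SimpleGraph (Fin n)) (σ : J v)
    (M : ℝ) (hM : 0 < M) (hm : ∀ τ, (mult s G τ : ℝ) ≤ M) (i : ℕ) (hi : i < L) :
    av (fun r : J s → Lab L × Sub s v => ind (¬ |(cnt r G σ i : ℝ) - coef L s v G σ * (2 / 5) ^ i| ≤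
      coef L s v G σ * (2 / 5) ^ i / 6)) ≤
        2 * Real.exp (-(coef L s v G σ * (2 / 5) ^ i / (144 * M))) := by
  have := lab_ne L hL
  have := sub_ne s v hv
  have h := chern (fun τ => (mult s G τ : ℝ))
    (fun τ (y : Lab L × Sub s v) => (y.1.1 : ℕ) = i ∧ sub v τ y.2 = σ) M hM
    (fun _ => Nat.cast_nonneg _) hm (coef L s v G σ * (2 / 5) ^ i) (by
      have e : ∀ τ : J s, av (fun y : Lab L × Sub s v => ind ((y.1.1 : ℕ) = i ∧ sub v τ y.2 = σ)) =
          5 ^ L / Fintype.card (Lab L) * (2 / 5) ^ i *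
            av (fun ρ : Sub s v => ind (sub v τ ρ = σ)) := fun τ => by
        simp only [ind_and]
        rw [← lab_av L i hi]
        exact av_pair (fun z : Lab L => ind ((z.1 : ℕ) = i)) (fun ρ : Sub s v => ind (sub v τ ρ = σ))
      simp only [e]
      rw [coef, mul_assoc, mul_comm _ ((2 / 5 : ℝ) ^ i), ← mul_assoc, mul_sum]
      exact sum_congr rfl fun τ _ => by ring)
  refine le_trans (le_of_eq ?_) h
  congr 1
  funext r
  rw [sum_mult s G (fun τ => ind (((r τ).1.1 : ℕ) = i ∧ sub v τ (r τ).2 = σ)), sum_ind,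
    filter_filter]
  rfl

def Win {L s v n : ℕ} (r : J s → Lab L × Sub s v) (G : SimpleGraph (Fin n)) (σ : J v) (D : ℕ) : Prop :=
  ∃ A : ℝ, 0 < A ∧ ∀ i < D, |(cnt r G σ i : ℝ) - A * (2 / 5) ^ i| ≤ A * (2 / 5) ^ i / 6

lemma stage1 (L s v : ℕ) (hL : 1 ≤ L) (hv : v ≤ s) (N : Finset ℕ) (hN : ∀ n ∈ N, s ≤ n)
    (M K : ℕ → ℝ) (hM : ∀ n, 0 < M n) (D : ℕ → ℕ) (hD : ∀ n ∈ N, D n ≤ L ∧ D n ≤ n)
    (hK : ∀ n ∈ N, ∀ i < D n, 144 * M n * K n ≤ (n.choose s : ℝ) / (L * n.choose v) * (2 / 5) ^ i)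
    (hS : ∑ n ∈ N, (2 : ℝ) ^ n.choose 2 * (2 ^ n * (n * (2 * Real.exp (-K n)))) < 1) :
    ∃ r : J s → Lab L × Sub s v, ∀ n ∈ N, ∀ G : SimpleGraph (Fin n),
      (∀ τ, (mult s G τ : ℝ) ≤ M n) → ∀ W : Finset (Fin n), #W = v → Win r G (typ v G W) (D n) := by
  have := lab_ne L hL
  have := sub_ne s v hv
  set bad : (n : ℕ) → SimpleGraph (Fin n) → Finset (Fin n) → ℕ → (J s → Lab L × Sub s v) → Prop :=
    fun n G W i r => (∀ τ, (mult s G τ : ℝ) ≤ M n) ∧ #W = v ∧
      ¬ |(cnt r G (typ v G W) i : ℝ) - coef L s v G (typ v G W) * (2 / 5) ^ i| ≤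
        coef L s v G (typ v G W) * (2 / 5) ^ i / 6 with hbad
  have h1 : ∀ n ∈ N, ∀ G W, ∀ i < D n, av (fun r => ind (bad n G W i r)) ≤ 2 * Real.exp (-K n) := by
    intro n hn G W i hi
    by_cases h : (∀ τ, (mult s G τ : ℝ) ≤ M n) ∧ #W = v
    · refine (av_mono fun r => ind_mono fun h => h.2.2).trans
        ((cnt_dev L s v hL hv G _ (M n) (hM n) h.1 i (hi.trans_le (hD n hn).1)).trans ?_)
      refine mul_le_mul_of_nonneg_left (Real.exp_le_exp.2 (neg_le_neg ?_)) (by norm_num)
      rw [le_div_iff₀ (by have := hM n; positivity)]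
      have a1 := hK n hn i hi
      have a2 := mul_le_mul_of_nonneg_right (coef_ge L s v hL hv (hN n hn) G W h.2)
        (show (0 : ℝ) ≤ (2 / 5) ^ i by positivity)
      linarith
    · refine (av_mono (g := fun _ => 0) fun r => le_of_eq (ind_neg fun h' => h ⟨h'.1, h'.2.1⟩)).trans ?_
      rw [av_const]; positivity
  obtain ⟨r, hr⟩ := exists_le_av (fun r : J s → Lab L × Sub s v =>
    ∑ n ∈ N, ∑ G : SimpleGraph (Fin n), ∑ W : Finset (Fin n), ∑ i ∈ range (D n), ind (bad n G W i r))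
  simp only [av_sum] at hr
  have h2 : ∑ n ∈ N, ∑ G : SimpleGraph (Fin n), ∑ W : Finset (Fin n), ∑ i ∈ range (D n),
      av (fun r => ind (bad n G W i r)) ≤
      ∑ n ∈ N, (2 : ℝ) ^ n.choose 2 * (2 ^ n * (n * (2 * Real.exp (-K n)))) := by
    refine sum_le_sum fun n hn => ?_
    refine (sum_le_sum (g := fun _ => (2 : ℝ) ^ n * (n * (2 * Real.exp (-K n)))) fun G _ => ?_).trans
      (by rw [sum_const, card_univ, card_graphs]; simp)
    refine (sum_le_sum (g := fun _ => (n : ℝ) * (2 * Real.exp (-K n))) fun W _ => ?_).trans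
      (by simp)
    refine (sum_le_sum fun i hi => h1 n hn G W i (mem_range.1 hi)).trans ?_
    rw [sum_const, card_range, nsmul_eq_mul]
    exact mul_le_mul_of_nonneg_right (by exact_mod_cast (hD n hn).2) (by positivity)
  refine ⟨r, fun n hn G hG W hW => ⟨coef L s v G (typ v G W), ?_, fun i hi => ?_⟩⟩
  · refine lt_of_lt_of_le ?_ (coef_ge L s v hL hv (hN n hn) G W hW)
    have : (0 : ℝ) < n.choose s := by exact_mod_cast Nat.choose_pos (hN n hn)
    have : (0 : ℝ) < n.choose v := by exact_mod_cast Nat.choose_pos (hv.trans (hN n hn))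
    have : (0 : ℝ) < L := by exact_mod_cast hL
    positivity
  · by_contra hb
    have a1 : ind (bad n G W i r) = 1 := ind_pos ⟨hG, hW, hb⟩
    have a2 := single_le_sum (f := fun i => ind (bad n G W i r)) (fun _ _ => ind_nonneg _)
      (mem_range.2 hi)
    have a3 := single_le_sum (f := fun W => ∑ i ∈ range (D n), ind (bad n G W i r))
      (fun _ _ => sum_nonneg fun _ _ => ind_nonneg _) (mem_univ W)
    have a4 := single_le_sum
      (f := fun G => ∑ W : Finset (Fin n), ∑ i ∈ range (D n), ind (bad n G W i r))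
      (fun _ _ => sum_nonneg fun _ _ => sum_nonneg fun _ _ => ind_nonneg _) (mem_univ G)
    have a5 := single_le_sum
      (f := fun n => ∑ G : SimpleGraph (Fin n), ∑ W : Finset (Fin n), ∑ i ∈ range (D n),
        ind (bad n G W i r))
      (fun _ _ => sum_nonneg fun _ _ => sum_nonneg fun _ _ => sum_nonneg fun _ _ => ind_nonneg _) hn
    linarith

noncomputable def Ncnt {L s v n : ℕ} (r : J s → Lab L × Sub s v) (G : SimpleGraph (Fin n))
    (x : Finset (Fin L × J v)) : ℕ :=
  #{S : Finset (Fin n) | #S = s ∧ key r (typ s G S) ∈ x}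

lemma level {L s v n : ℕ} (r : J s → Lab L × Sub s v) (G H : SimpleGraph (Fin n))
    (W : Finset (Fin n)) (hW : #W = v) (hE : ¬ Emb G H W) (D : ℕ) (hD : D ≤ L)
    (hw : Win r G (typ v G W) D) (R R' : ℕ) :
    av (fun x : Finset (Fin L × J v) => ind (Ncnt r G x + R = Ncnt r H x + R')) ≤ (1 / 2) ^ D := by
  set σ := typ v G W with hσ
  set E : Finset (Fin L × J v) := {k | (k.1 : ℕ) < D ∧ k.2 = σ} with hE0
  have cE : D ≤ #E := by
    rw [← card_range D]
    refine card_le_card_of_surjOn (fun k => (k.1 : ℕ)) fun i hi => ?_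
    have hi' : i < D := by simpa using hi
    exact ⟨(⟨i, by omega⟩, σ), by simp [hE0, hi'], rfl⟩
  obtain ⟨A, A0, hA⟩ := hw
  have h := det_card {x : Finset (Fin L × J v) | Ncnt r G x + R = Ncnt r H x + R'} id univ E
    (subset_univ _) (fun _ _ => subset_univ _) (fun x hx y hy e => by
      simp only [mem_filter, mem_univ, true_and, id] at hx hy e
      have out : ∀ k, k ∉ E → (k ∈ x ↔ k ∈ y) := fun k hk => by
        have := congrArg (fun S => k ∈ S) e
        simpa [hk] using this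
      have h1 : Ncnt r H x = Ncnt r H y := by
        unfold Ncnt
        congr 1
        refine filter_congr fun S _ => and_congr_right fun hS => out _ fun hk => hE ?_
        obtain ⟨W', h'⟩ := sub_out v H S hS (r (typ s H S)).2
        have : σ = typ v H W' := by rw [← h', ← (mem_filter.1 hk).2.2]; rfl
        obtain ⟨f, a, -, c⟩ := typ_emb G H W W' hW this
        exact ⟨f, a, c⟩
      have h2 : (Ncnt r G x : ℝ) = Ncnt r G y := by
        have : Ncnt r G x = Ncnt r G y := by omega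
        rw [this]
      set ε : ℕ → ℝ := fun i => ind (∃ k ∈ x, (k.1 : ℕ) = i ∧ k.2 = σ) -
        ind (∃ k ∈ y, (k.1 : ℕ) = i ∧ k.2 = σ) with hε
      have eps : ∀ k : Fin L × J v, k.2 = σ → ε k.1 = ind (k ∈ x) - ind (k ∈ y) := by
        intro k hk
        have : ∀ z : Finset (Fin L × J v), (∃ k' ∈ z, (k'.1 : ℕ) = k.1 ∧ k'.2 = σ) ↔ k ∈ z := by
          intro z
          constructor
          · rintro ⟨k', a, b, c⟩
            have : k' = k := Prod.ext (Fin.ext b) (by rw [c, hk])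
            exact this ▸ a
          · intro a; exact ⟨k, a, rfl, hk⟩
        simp only [hε, this]
      have pt : ∀ k : Fin L × J v, ind (k ∈ x) - ind (k ∈ y) =
          ∑ i ∈ range D, ε i * ind ((k.1 : ℕ) = i ∧ k.2 = σ) := by
        intro k
        by_cases hk : k ∈ E
        · obtain ⟨-, a, b⟩ := mem_filter.1 hk
          rw [sum_eq_single (k.1 : ℕ), ind_pos (p := _ ∧ _) ⟨rfl, b⟩, mul_one, eps k b]
          · intro j _ hj; rw [ind_neg fun h => hj h.1.symm, mul_zero]
          · intro h; exact absurd (mem_range.2 a) h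
        · rw [ind_congr (out k hk), sub_self]
          refine (sum_eq_zero fun j hj => ?_).symm
          rw [ind_neg, mul_zero]
          rintro ⟨a, b⟩
          exact hk (mem_filter.2 ⟨mem_univ _, a ▸ mem_range.1 hj, b⟩)
      have h3 : ∑ i ∈ range D, ε i * (cnt r G σ i : ℝ) = 0 := by
        have a1 : ∀ z, (Ncnt r G z : ℝ) =
            ∑ S ∈ {S : Finset (Fin n) | #S = s}, ind (key r (typ s G S) ∈ z) := fun z => by
          rw [sum_ind, filter_filter, Ncnt]
        have a2 : ∀ i, (cnt r G σ i : ℝ) = ∑ S ∈ {S : Finset (Fin n) | #S = s},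
            ind (((key r (typ s G S)).1 : ℕ) = i ∧ (key r (typ s G S)).2 = σ) := fun z => by
          rw [sum_ind, filter_filter, cnt]
        rw [a1, a1, ← sub_eq_zero, ← sum_sub_distrib] at h2
        simp only [pt] at h2
        rw [sum_comm] at h2
        simp only [a2, mul_sum]
        exact h2
      have h4 := dissoc D (fun i => (cnt r G σ i : ℝ)) A A0 hA ε (fun i => by
        simp only [hε, ind]; split_ifs <;> norm_num) h3
      ext k
      by_cases hk : k ∈ E
      · obtain ⟨-, a, b⟩ := mem_filter.1 hk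
        have := h4 _ a
        rw [eps k b] at this
        unfold ind at this
        split_ifs at this with c d d
        · exact iff_of_true c d
        · norm_num at this
        · norm_num at this
        · exact iff_of_false c d
      · exact out k hk)
  rw [av_ind, Fintype.card_finset, card_univ] at *
  have h5 : (#{x : Finset (Fin L × J v) | Ncnt r G x + R = Ncnt r H x + R'} : ℝ) * 2 ^ D ≤
      2 ^ Fintype.card (Fin L × J v) := by
    exact_mod_cast (Nat.mul_le_mul_left _ (Nat.pow_le_pow_right (by norm_num) cE)).trans h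
  rw [div_le_iff₀ (by positivity), one_div, inv_pow, ← div_eq_inv_mul, le_div_iff₀ (by positivity)]
  exact_mod_cast h5

lemma mult_le {s n t : ℕ} {G : SimpleGraph (Fin n)} (hG : NoCopy G t) (τ : J s) :
    mult s G τ ≤ #((univ : Finset (Fin n)).powerset.filter fun A => #A ≤ 6 * t) := by
  unfold mult
  rcases eq_empty_or_nonempty ({S : Finset (Fin n) | #S = s ∧ typ s G S = τ} : Finset _) with h | ⟨S, hS⟩
  · rw [h]; simp
  have k : ∀ S T : Finset (Fin n), #S = s → typ s G S = typ s G T → #(S \ T) ≤ 3 * t := by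
    intro S T a b
    obtain ⟨f, c, d, e⟩ := typ_emb G G S T a b
    exact moves hG (S \ T) f (c.mono fun x hx => (mem_sdiff.1 hx).1)
      (fun x hx h => (mem_sdiff.1 hx).2 (h ▸ d x (mem_sdiff.1 hx).1))
      fun x hx y hy => e x (mem_sdiff.1 hx).1 y (mem_sdiff.1 hy).1
  obtain ⟨-, s1, s2⟩ := mem_filter.1 hS
  refine card_le_card_of_injOn (fun T => symmDiff S T) (fun T hT => ?_) fun T _ T' _ e => ?_
  · obtain ⟨-, t1, t2⟩ := mem_filter.1 hT
    have a1 := k S T s1 (s2.trans t2.symm)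
    have a2 := k T S t1 (t2.trans s2.symm)
    have a3 := card_union_le (S \ T) (T \ S)
    simp only [coe_filter, mem_powerset, subset_univ, true_and, Set.mem_setOf_eq]
    rw [symmDiff_def, sup_eq_union]
    omega
  · exact symmDiff_right_injective S e

end Pool.Agent.H.Har
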