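import Pool.Agent.H.MP_916a8b_co.A

set_option autoImplicit false
open Finset Filter Polynomial
open scoped Classical

namespace Pool.Agent.H.Har

noncomputable def hc {n : ℕ} (mem : Finset (Fin n) → Prop) (i : ℕ) : ℕ :=
  #{π : Finpartition (univ : Finset (Fin n)) | #π.parts = i ∧ ∀ B ∈ π.parts, mem B}

noncomputable def Rc {n : ℕ} (mem : Finset (Fin n) → Prop) (s : ℕ) : ℕ :=
  #{π : Finpartition (univ : Finset (Fin n)) | (#π.parts = n - s + 1 ∧ ∀ B ∈ π.parts, mem B) ∧
    ∀ B ∈ π.parts, #B < s}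

lemma Rc_congr {n : ℕ} (mem mem' : Finset (Fin n) → Prop) (s : ℕ)
    (h : ∀ B, #B < s → (mem B ↔ mem' B)) : Rc mem s = Rc mem' s := by
  unfold Rc
  congr 1
  refine filter_congr fun π _ => and_congr_left fun a => and_congr_right fun _ => ?_
  exact forall₂_congr fun B hB => h B (a B hB)

lemma hc_top {n : ℕ} (mem : Finset (Fin n) → Prop) (h1 : ∀ B, #B = 1 → mem B) : 0 < hc mem n := by
  refine card_pos.2 ⟨⊥, mem_filter.2 ⟨mem_univ _, by rw [Finpartition.card_bot]; simp, ?_⟩⟩
  intro B hB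
  obtain ⟨x, -, rfl⟩ := Finpartition.mem_bot_iff.1 hB
  exact h1 _ (card_singleton _)

lemma hc_zero {n : ℕ} (mem : Finset (Fin n) → Prop) (i : ℕ) (h : n < i) : hc mem i = 0 := by
  refine card_eq_zero.2 (filter_eq_empty_iff.2 fun π _ a => ?_)
  have := π.card_parts_le_card
  simp at this; omega

lemma big_part {n s : ℕ} (hs : s ≤ n) (π : Finpartition (univ : Finset (Fin n)))
    (h : #π.parts = n - s + 1) (B : Finset (Fin n)) (hB : B ∈ π.parts) (hb : s ≤ #B) :
    #B = s ∧ ∀ C ∈ π.parts, C ≠ B → #C = 1 := by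
  have h1 := π.sum_card_parts
  rw [← add_sum_erase _ _ hB, card_univ, Fintype.card_fin] at h1
  have h2 : ∀ C ∈ π.parts.erase B, 1 ≤ #C := fun C hC =>
    card_pos.2 (π.nonempty_of_mem_parts (mem_of_mem_erase hC))
  have h3 : #(π.parts.erase B) = n - s := by rw [card_erase_of_mem hB, h]; omega
  have h4 := card_nsmul_le_sum _ (fun C => #C) _ h2
  simp only [smul_eq_mul, mul_one] at h4
  refine ⟨by omega, fun C hC hne => ?_⟩
  have hC' : C ∈ π.parts.erase B := mem_erase.2 ⟨hne, hC⟩
  rw [← add_sum_erase _ _ hC'] at h1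
  have h5 := card_nsmul_le_sum ((π.parts.erase B).erase C) (fun C => #C) 1
    fun D hD => h2 D (mem_of_mem_erase hD)
  simp only [smul_eq_mul, mul_one] at h5
  rw [card_erase_of_mem hC'] at h5
  have := h2 C hC'
  have := card_pos.2 ⟨C, hC'⟩
  omega

noncomputable def one {n : ℕ} (S : Finset (Fin n)) (h : S.Nonempty) :
    Finpartition (univ : Finset (Fin n)) :=
  (⊥ : Finpartition Sᶜ).extend (b := S) h.ne_empty disjoint_compl_left (by simp)

lemma mem_one {n : ℕ} (S : Finset (Fin n)) (h : S.Nonempty) (B : Finset (Fin n)) :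
    B ∈ (one S h).parts ↔ B = S ∨ ∃ x, x ∉ S ∧ {x} = B := by
  simp [one, Finpartition.mem_bot_iff]

lemma hc_eq {n s : ℕ} (mem : Finset (Fin n) → Prop) (h1 : ∀ B, #B = 1 → mem B) (h2 : 2 ≤ s)
    (hs : s ≤ n) : hc mem (n - s + 1) = #{S : Finset (Fin n) | #S = s ∧ mem S} + Rc mem s := by
  unfold hc Rc
  rw [← filter_filter (fun π : Finpartition (univ : Finset (Fin n)) =>
      #π.parts = n - s + 1 ∧ ∀ B ∈ π.parts, mem B),
    ← card_filter_add_card_filter_not (fun π : Finpartition (univ : Finset (Fin n)) =>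
      ∀ B ∈ π.parts, #B < s), add_comm]
  congr 1
  symm
  refine card_bij (fun S hS => one S (card_pos.1 (by have := (mem_filter.1 hS).2.1; omega)))
    (fun S hS => ?_) (fun S hS T hT e => ?_) fun π hπ => ?_
  · obtain ⟨-, a, b⟩ := mem_filter.1 hS
    simp only [mem_filter, mem_univ, true_and, not_forall, not_lt]
    refine ⟨⟨?_, fun B hB => ?_⟩, S, (mem_one _ _ _).2 (Or.inl rfl), a.ge⟩
    · rw [one, Finpartition.card_extend, Finpartition.card_bot, card_compl, Fintype.card_fin, a]
    · rcases (mem_one _ _ _).1 hB with rfl | ⟨x, -, rfl⟩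
      · exact b
      · exact h1 _ (card_singleton _)
  · obtain ⟨-, a, -⟩ := mem_filter.1 hS
    have := (mem_one S (card_pos.1 (by omega)) S).2 (Or.inl rfl)
    rw [e, mem_one] at this
    rcases this with h | ⟨x, -, h⟩
    · exact h
    · rw [← h, card_singleton] at a; omega
  · simp only [mem_filter, mem_univ, true_and, not_forall, not_lt] at hπ
    obtain ⟨⟨a, b⟩, B, hB, c⟩ := hπ
    obtain ⟨d, e⟩ := big_part hs π a B hB c
    refine ⟨B, mem_filter.2 ⟨mem_univ _, d, b B hB⟩, ?_⟩
    ext C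
    rw [mem_one]
    constructor
    · rintro (rfl | ⟨x, hx, rfl⟩)
      · exact hB
      · obtain ⟨C, hC, hxC⟩ := π.exists_mem (mem_univ x)
        obtain ⟨y, rfl⟩ := card_eq_one.1 (e C hC fun h => hx (h ▸ hxC))
        rw [mem_singleton.1 hxC]; exact hC
    · intro hC
      by_cases h : C = B
      · exact Or.inl h
      · obtain ⟨y, rfl⟩ := card_eq_one.1 (e C hC h)
        refine Or.inr ⟨y, fun hy => h ?_, rfl⟩
        exact π.eq_of_mem_parts hC hB (mem_singleton_self _) hy

lemma coeff_eq (n m : ℕ) (a b : ℕ → ℕ) (ha : ∀ i, n < i → a i = 0) (hb : ∀ i, m < i → b i = 0)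
    (h : ∑ i ∈ range (n + 1), C (a i : ℤ) * descPochhammer ℤ i =
      ∑ i ∈ range (m + 1), C (b i : ℤ) * descPochhammer ℤ i) : a = b := by
  have ext : ∀ (n : ℕ) (a : ℕ → ℕ), (∀ i, n < i → a i = 0) → ∀ k : ℕ,
      (∑ i ∈ range (n + 1), C (a i : ℤ) * descPochhammer ℤ i).eval (k : ℤ) =
        ∑ i ∈ range (k + 1), (a i : ℤ) * k.descFactorial i := by
    intro n a ha k
    rw [eval_finset_sum]
    simp only [eval_mul, eval_C, descPochhammer_eval_eq_descFactorial]
    rw [sum_subset (s₂ := range (n + k + 1)) (range_subset_range.2 (by omega)),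
      sum_subset (s₁ := range (k + 1)) (s₂ := range (n + k + 1)) (range_subset_range.2 (by omega))]
    · intro i _ hi
      rw [Nat.descFactorial_of_lt (by simpa using hi)]; simp
    · intro i _ hi
      rw [ha i (by simpa using hi)]; simp
  funext k
  induction k using Nat.strong_induction_on with
  | _ k ih =>
    have h1 := ext n a ha k
    rw [h, ext m b hb k, sum_range_succ, sum_range_succ,
      sum_congr rfl fun i hi => by rw [← ih i (mem_range.1 hi)], add_right_inj] at h1
    have h2 : (k.descFactorial k : ℤ) ≠ 0 := by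
      rw [Nat.descFactorial_self]; exact_mod_cast k.factorial_ne_zero
    exact_mod_cast (mul_right_cancel₀ h2 h1).symm

end Pool.Agent.H.Har
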