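import Pool.Agent.H.MP_916a8b_co.C

set_option autoImplicit false
open Finset Filter Real
open scoped Classical

namespace Pool.Agent.H.Har

lemma e7 : (1000 : ℝ) ≤ exp 7 := by
  have h := Real.exp_one_gt_d9
  have : exp 7 = exp 1 ^ 7 := by rw [← Real.exp_nat_mul]; norm_num
  rw [this]
  calc (1000 : ℝ) ≤ 2.7182818283 ^ 7 := by norm_num
    _ ≤ _ := pow_le_pow_left₀ (by norm_num) h.le 7

lemma beta_le (n k : ℕ) (h : 10000 * k ≤ n) :
    (#((univ : Finset (Fin n)).powerset.filter fun A => #A ≤ k) : ℝ) ≤ exp (n / 500) := by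
  refine (small_card univ k 1000 (by norm_num)).trans ?_
  rw [card_univ, Fintype.card_fin]
  have a1 : (1 + 1 / 1000 : ℝ) ^ n ≤ exp (n * (1 / 1000)) := by
    rw [Real.exp_nat_mul]
    exact pow_le_pow_left₀ (by norm_num) (by linarith [Real.add_one_le_exp (1 / 1000)]) _
  have a2 : (1000 : ℝ) ^ k ≤ exp (k * 7) := by
    rw [Real.exp_nat_mul]; exact pow_le_pow_left₀ (by norm_num) e7 _
  refine (mul_le_mul a1 a2 (by positivity) (by positivity)).trans ?_
  rw [← Real.exp_add]
  apply Real.exp_le_exp.2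
  have : (10000 * k : ℝ) ≤ n := by exact_mod_cast h
  have : (0 : ℝ) ≤ n := Nat.cast_nonneg _
  linarith

lemma choose_le_beta (n k : ℕ) (h : 10000 * k ≤ n) : (n.choose k : ℝ) ≤ exp (n / 500) := by
  refine le_trans ?_ (beta_le n k h)
  have : n.choose k = #(powersetCard k (univ : Finset (Fin n))) := by simp
  rw [this]
  exact_mod_cast card_le_card fun A hA => by
    simp [(mem_powersetCard.1 hA).2]

lemma log_choose_sum (n : ℕ) :
    (n.choose 2 : ℝ) - n * log n ≤ ∑ s ∈ range (n + 1), log (n.choose s) := by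
  have key : ∀ n : ℕ, (n : ℝ) - log (n + 1) ≤ (n + 1) * log (n + 1) - log ((n + 1).factorial) := by
    intro n
    induction n with
    | zero => simp
    | succ n ih =>
      rw [Nat.factorial_succ (n + 1)]
      push_cast
      rw [Real.log_mul (by positivity) (by positivity)]
      have h1 := Real.one_sub_inv_le_log_of_pos (x := (n + 1 + 1 : ℝ) / (n + 1)) (by positivity)
      rw [Real.log_div (by positivity) (by positivity), inv_div] at h1
      have h2 : (1 : ℝ) ≤ (n + 1 + 1) * (log (n + 1 + 1) - log (n + 1)) := by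
        have : (n + 1 + 1 : ℝ) * (1 - (n + 1) / (n + 1 + 1)) = 1 := by field_simp; ring
        have h3 := mul_le_mul_of_nonneg_left h1 (show (0 : ℝ) ≤ n + 1 + 1 by positivity)
        rwa [this] at h3
      push_cast at ih
      nlinarith
  have step : ∀ n : ℕ, ∑ s ∈ range (n + 2), log ((n + 1).choose s) =
      ∑ s ∈ range (n + 1), log (n.choose s) + ((n + 1) * log (n + 1) - log ((n + 1).factorial)) := by
    intro n
    rw [sum_range_succ, Nat.choose_self, Nat.cast_one, Real.log_one, add_zero]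
    have h1 : ∀ s ∈ range (n + 1), log ((n + 1).choose s) =
        log (n.choose s) + (log (n + 1) - log ((n + 1 - s : ℕ))) := by
      intro s hs
      have hs' : s ≤ n := by simpa [Nat.lt_succ_iff] using hs
      have e := Nat.choose_mul_succ_eq n s
      have p1 : (0 : ℝ) < n.choose s := by exact_mod_cast Nat.choose_pos hs'
      have p2 : (0 : ℝ) < (n + 1).choose s := by exact_mod_cast Nat.choose_pos (by omega)
      have p3 : (0 : ℝ) < ((n + 1 - s : ℕ) : ℝ) := by exact_mod_cast (by omega : 0 < n + 1 - s)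
      have e' : (n.choose s : ℝ) * (n + 1) = (n + 1).choose s * ((n + 1 - s : ℕ) : ℝ) := by
        exact_mod_cast e
      have := congrArg log e'
      rw [Real.log_mul p1.ne' (by positivity), Real.log_mul p2.ne' p3.ne'] at this
      linarith
    rw [sum_congr rfl h1, sum_add_distrib, sum_sub_distrib, sum_const, card_range, nsmul_eq_mul]
    congr 2
    · push_cast; ring
    · rw [← Real.log_prod (fun s hs => by
        have : s < n + 1 := mem_range.1 hs
        exact_mod_cast (by omega : n + 1 - s ≠ 0))]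
      congr 1
      rw [← Nat.cast_prod, ← Finset.prod_range_add_one_eq_factorial, ← prod_range_reflect]
      congr 1
      refine prod_congr rfl fun s hs => ?_
      have : s < n + 1 := mem_range.1 hs
      omega
  induction n with
  | zero => simp
  | succ n ih =>
    rw [step]
    have h1 := key n
    have h2 : ((n + 1).choose 2 : ℝ) = n.choose 2 + n := by
      rw [Nat.choose_succ_succ' n 1]; simp [add_comm]
    have h3 : (n : ℝ) * log n ≤ n * log (n + 1) := by
      rcases Nat.eq_zero_or_pos n with h | h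
      · simp [h]
      · exact mul_le_mul_of_nonneg_left (Real.log_le_log (by exact_mod_cast h) (by linarith))
          (Nat.cast_nonneg _)
    push_cast
    linarith

noncomputable def DD (n s : ℕ) : ℕ := ⌊(log (n.choose s) - n / 50) / log (5 / 2)⌋₊

lemma l_pos : 0 < log (5 / 2 : ℝ) := Real.log_pos (by norm_num)

lemma l_le : log (5 / 2 : ℝ) ≤ 0.92 := by
  rw [Real.log_le_iff_le_exp (by norm_num)]
  refine le_trans ?_ (Real.sum_le_exp_of_nonneg (by norm_num) 5)
  simp only [sum_range_succ, Nat.factorial]; norm_num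

lemma log_choose_le (n s : ℕ) (h : s ≤ n) : log (n.choose s) ≤ n * log 2 := by
  rw [← Real.log_pow]
  refine Real.log_le_log (by exact_mod_cast Nat.choose_pos h) ?_
  exact_mod_cast Nat.choose_le_two_pow n s

lemma DD_le (n s : ℕ) (h : s ≤ n) : DD n s ≤ n := by
  refine Nat.floor_le_of_le ?_
  rw [div_le_iff₀ l_pos]
  have a := log_choose_le n s h
  have b : log 2 ≤ log (5 / 2 : ℝ) := Real.log_le_log (by norm_num) (by norm_num)
  have c : (0 : ℝ) ≤ n := Nat.cast_nonneg _
  nlinarith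

lemma DD_lt (n s i : ℕ) (hs : s ≤ n) (h : i < DD n s) :
    exp (n / 50) ≤ (n.choose s : ℝ) * (2 / 5) ^ i := by
  have a : (i : ℝ) ≤ (log (n.choose s) - n / 50) / log (5 / 2) := by
    have := (Nat.le_floor_iff' (Nat.succ_ne_zero i)).1 h
    push_cast at this
    linarith
  rw [le_div_iff₀ l_pos] at a
  have p : (0 : ℝ) < n.choose s := by exact_mod_cast Nat.choose_pos hs
  rw [← Real.le_log_iff_exp_le (by positivity), Real.log_mul p.ne' (by positivity), Real.log_pow]
  have : log (2 / 5 : ℝ) = -log (5 / 2) := by rw [← Real.log_inv]; norm_num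
  rw [this]; linarith

lemma log_le_aux (n : ℕ) (hn : 1 ≤ n) (c : ℝ) (k : ℕ) (hc : c = 1000 ^ k) :
    log n ≤ n / c + 7 * k := by
  have c0 : 0 < c := by rw [hc]; positivity
  have n0 : (0 : ℝ) < n := by exact_mod_cast hn
  have a := Real.log_le_sub_one_of_pos (x := n / c) (by positivity)
  rw [Real.log_div n0.ne' c0.ne'] at a
  have b : log c ≤ 7 * k := by
    rw [hc, Real.log_pow, mul_comm]
    refine mul_le_mul_of_nonneg_right ?_ (Nat.cast_nonneg _)
    rw [Real.log_le_iff_le_exp (by norm_num)]; exact e7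
  linarith

lemma choose_two (n : ℕ) : (n.choose 2 : ℝ) = n * (n - 1) / 2 := Nat.cast_choose_two ℝ n

noncomputable def D' (n s : ℕ) : ℕ := if n ≤ 100 * s ∧ s ≤ n then DD n s else 0

lemma sum_D (n m : ℕ) (hn : 10 ^ 60 ≤ n) (hm : n < m) :
    n.choose 2 + 2 * n ≤ ∑ s ∈ range m, D' n s := by
  refine le_trans ?_ (sum_le_sum_of_subset (range_subset_range.2 (show n + 1 ≤ m from hm)))
  have n0 : (10 : ℝ) ^ 60 ≤ n := by exact_mod_cast hn
  have h1 : ∀ s ∈ range (n + 1), log (n.choose s) - (n / 50 + 1) - n * ind (100 * s < n) ≤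
      0.92 * (D' n s : ℝ) := by
    intro s hs
    have hs' : s ≤ n := by simpa [Nat.lt_succ_iff] using hs
    by_cases h : n ≤ 100 * s
    · rw [D', if_pos ⟨h, hs'⟩, ind_neg (by omega)]
      have a := Nat.lt_floor_add_one ((log (n.choose s) - n / 50) / log (5 / 2))
      rw [div_lt_iff₀ l_pos] at a
      have b := l_le
      have c : (0 : ℝ) ≤ DD n s := Nat.cast_nonneg _
      unfold DD at *
      nlinarith
    · rw [D', if_neg fun h' => h h'.1, ind_pos (by omega)]
      have a := log_choose_le n s hs'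
      have b : log 2 ≤ 1 := by linarith [Real.log_two_lt_d9]
      push_cast
      nlinarith
  have h2 := sum_le_sum h1
  rw [sum_sub_distrib, sum_sub_distrib, ← mul_sum, ← mul_sum, sum_ind, sum_const, card_range,
    nsmul_eq_mul] at h2
  have h3 : (#((range (n + 1)).filter fun s => 100 * s < n) : ℝ) ≤ n / 100 + 1 := by
    have : #((range (n + 1)).filter fun s => 100 * s < n) ≤ #(range (n / 100 + 1)) :=
      card_le_card fun s hs => by
        have := (mem_filter.1 hs).2
        rw [mem_range]; omega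
    rw [card_range] at this
    have a : ((n / 100 : ℕ) : ℝ) ≤ n / 100 := Nat.cast_div_le
    have b : (#((range (n + 1)).filter fun s => 100 * s < n) : ℝ) ≤ (n / 100 : ℕ) + 1 := by
      exact_mod_cast this
    linarith
  have h4 := log_choose_sum n
  have h5 := log_le_aux n (le_trans (by norm_num) hn) 1000 1 (by norm_num)
  have h6 := choose_two n
  have h7 : (n.choose 2 : ℝ) + 2 * n ≤ ∑ s ∈ range (n + 1), (D' n s : ℝ) := by
    have a := mul_le_mul_of_nonneg_left h3 (show (0 : ℝ) ≤ n by positivity)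
    have b := mul_le_mul_of_nonneg_left h5 (show (0 : ℝ) ≤ n by positivity)
    push_cast at h2 b
    nlinarith
  exact_mod_cast h7

noncomputable def KK (n : ℕ) : ℝ := n.choose 2 + 3 * n + 10

lemma hK_ok (n s i : ℕ) (hn : 10 ^ 60 ≤ n) (hs : s ≤ n) (h : i < DD n s) :
    144 * exp (n / 500) * KK n ≤
      (n.choose s : ℝ) / (((100 * s + 1 : ℕ) : ℝ) * n.choose (s / 10000)) * (2 / 5) ^ i := by
  have n0 : (10 : ℝ) ^ 60 ≤ n := by exact_mod_cast hn
  have a1 := DD_lt n s i hs h
  have a2 := choose_le_beta n (s / 10000) (by omega)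
  have p : (0 : ℝ) < n.choose (s / 10000) := by exact_mod_cast Nat.choose_pos (by omega)
  have a3 : ((100 * s + 1 : ℕ) : ℝ) ≤ 101 * n := by
    have : 100 * s + 1 ≤ 101 * n := by
      have : 1 ≤ n := le_trans (by norm_num) hn
      omega
    exact_mod_cast this
  have a4 : KK n ≤ n ^ 2 := by rw [KK, choose_two]; nlinarith
  have k0 : 0 ≤ KK n := by unfold KK; positivity
  rw [div_mul_eq_mul_div, le_div_iff₀ (by positivity)]
  refine le_trans ?_ a1
  have a5 := Real.pow_div_factorial_le_exp (x := n * (2 / 125)) (by positivity) 4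
  have a6 : exp (n / 50) = exp (n / 500) * exp (n / 500) * exp (n * (2 / 125)) := by
    rw [← Real.exp_add, ← Real.exp_add]; congr 1; ring
  have a7 : 144 * (n : ℝ) ^ 2 * (101 * n) ≤ exp (n * (2 / 125)) := by
    refine le_trans ?_ a5
    simp only [Nat.factorial]
    have : (0 : ℝ) ≤ n ^ 3 := by positivity
    norm_num
    nlinarith
  calc _ ≤ 144 * exp (n / 500) * n ^ 2 * ((101 * n) * exp (n / 500)) :=
        mul_le_mul (mul_le_mul_of_nonneg_left a4 (by positivity))
          (mul_le_mul a3 a2 p.le (by positivity)) (by positivity) (by positivity)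
    _ = exp (n / 500) * exp (n / 500) * (144 * (n : ℝ) ^ 2 * (101 * n)) := by ring
    _ ≤ _ := by rw [a6]; exact mul_le_mul_of_nonneg_left a7 (by positivity)

lemma hS_ok (N : Finset ℕ) :
    ∑ n ∈ N, (2 : ℝ) ^ n.choose 2 * (2 ^ n * (n * (2 * Real.exp (-KK n)))) < 1 := by
  have e2 : (2 : ℝ) ≤ exp 1 := by linarith [Real.add_one_le_exp 1]
  have p2 : ∀ k : ℕ, (2 : ℝ) ^ k ≤ exp k := fun k => by
    rw [← mul_one (k : ℝ), Real.exp_nat_mul]; exact pow_le_pow_left₀ (by norm_num) e2 _
  have h1 : ∀ n : ℕ, (2 : ℝ) ^ n.choose 2 * (2 ^ n * (n * (2 * Real.exp (-KK n)))) ≤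
      2 / 11 * (1 / 2) ^ n := by
    intro n
    have a1 : (n : ℝ) ≤ exp n := by linarith [Real.add_one_le_exp n]
    have a2 : (11 : ℝ) ≤ exp 10 := by linarith [Real.add_one_le_exp 10]
    rw [Real.exp_neg, one_div, inv_pow, KK, Real.exp_add, Real.exp_add,
      show (3 * n : ℝ) = n + n + n by ring, Real.exp_add, Real.exp_add]
    have b := mul_le_mul (mul_le_mul (p2 (n.choose 2)) (mul_le_mul (mul_le_mul (p2 n) a1
      (by positivity) (by positivity)) (p2 n) (by positivity) (by positivity)) (by positivity)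
      (by positivity)) a2 (by positivity) (by positivity)
    rw [← mul_assoc, ← mul_assoc, ← mul_assoc, ← div_eq_mul_inv, ← div_eq_mul_inv,
      div_le_div_iff₀ (by positivity) (by positivity)]
    nlinarith
  refine (sum_le_sum fun n _ => h1 n).trans_lt ?_
  rw [← mul_sum]
  have : ∑ n ∈ N, (1 / 2 : ℝ) ^ n ≤ 2 :=
    (sum_le_sum_of_subset_of_nonneg (t := range (N.sup id + 1))
      (fun n hn => mem_range.2 (Nat.lt_succ_of_le (le_sup (f := id) hn)))
      fun _ _ _ => by positivity).trans (sum_geometric_two_le _)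
  linarith

lemma exists_r (s : ℕ) : ∃ r : J s → Lab (100 * s + 1) × Sub s (s / 10000),
    ∀ n, 10 ^ 60 ≤ n → n ≤ 100 * s → s ≤ n → ∀ G : SimpleGraph (Fin n), ∀ t, 60000 * t ≤ n →
      NoCopy G t → ∀ W : Finset (Fin n), #W = s / 10000 → Win r G (typ _ G W) (DD n s) := by
  obtain ⟨r, hr⟩ := stage1 (100 * s + 1) s (s / 10000) (by omega) (by omega)
    ((Icc s (100 * s)).filter fun n => 10 ^ 60 ≤ n)
    (fun n hn => (mem_Icc.1 (mem_filter.1 hn).1).1) (fun n => exp (n / 500)) KK
    (fun n => exp_pos _) (fun n => DD n s)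
    (fun n hn => by
      have a := mem_Icc.1 (mem_filter.1 hn).1
      have := DD_le n s a.1
      exact ⟨by omega, this⟩)
    (fun n hn i hi => hK_ok n s i (mem_filter.1 hn).2 (mem_Icc.1 (mem_filter.1 hn).1).1 hi)
    (hS_ok _)
  refine ⟨r, fun n a b c G t d e W f => hr n (mem_filter.2 ⟨mem_Icc.2 ⟨c, b⟩, a⟩) G (fun τ => ?_) W f⟩
  refine le_trans ?_ (beta_le n (6 * t) (by omega))
  exact_mod_cast mult_le e τ

def tt (n : ℕ) : ℕ := n / (8 * 10 ^ 22)

def col (n : ℕ) (x : Fin n) : Fin 2000000 := ⟨x % 2000000, Nat.mod_lt _ (by norm_num)⟩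

def Typ {n : ℕ} (G : SimpleGraph (Fin n)) : Prop :=
  NoCopy G (tt n) ∧ Sep G {x | col n x = 0} (12 * 2000000 ^ 2 * tt n + 2)

lemma col_le (n : ℕ) (i : Fin 2000000) : #{x | col n x = i} ≤ n / 2000000 + 1 := by
  rw [← card_range (n / 2000000 + 1)]
  refine card_le_card_of_injOn (fun x => (x : ℕ) / 2000000) (fun x _ => ?_) fun x hx y hy e => ?_
  · have := x.2
    simp only [coe_range, Set.mem_Iio]; omega
  · have a := congrArg Fin.val ((mem_filter.1 hx).2.trans (mem_filter.1 hy).2.symm)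
    simp only [col] at a e
    apply Fin.ext; omega

lemma col_ge (n : ℕ) : n / 2000000 ≤ #{x | col n x = 0} := by
  rw [← card_range (n / 2000000)]
  refine card_le_card_of_surjOn (fun x => (x : ℕ) / 2000000) fun j hj => ?_
  have hj' : j < n / 2000000 := by simpa using hj
  refine ⟨⟨2000000 * j, by omega⟩, ?_, by simp⟩
  simp only [coe_filter, mem_univ, true_and, Set.mem_setOf_eq]
  apply Fin.ext
  simp [col]

lemma only {n s : ℕ} (hn : 10 ^ 60 ≤ n) (h1 : n ≤ 100 * s) (h2 : s ≤ n) {G H : SimpleGraph (Fin n)}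
    (hG : Typ G) (hH : ¬ Nonempty (G ≃g H)) :
    ∃ W : Finset (Fin n), #W = s / 10000 ∧ ¬ Emb G H W := by
  by_contra h
  simp only [not_exists, not_and, not_not] at h
  refine hH (recon (w := s / 10000) hG.1 (col n) 0 (fun i => ?_) hG.2 fun S hS => ?_)
  · have := col_le n i
    norm_num at hn
    omega
  · obtain ⟨W, a, -, b⟩ := exists_subsuperset_card_eq (subset_univ S) hS
      (by rw [card_univ, Fintype.card_fin]; omega)
    obtain ⟨f, c, d⟩ := h W b
    exact ⟨f, c.mono a, fun x hx y hy => d x (a hx) y (a hy)⟩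

lemma atyp1 (n : ℕ) (hn : 10 ^ 60 ≤ n) :
    (#{G : SimpleGraph (Fin n) | ¬ NoCopy G (tt n)} : ℝ) ≤ (1 / 2) ^ n * 2 ^ n.choose 2 := by
  have h := count_NoCopy (V := Fin n) (tt n)
  rw [Fintype.card_fin] at h
  have h' : (#{G : SimpleGraph (Fin n) | ¬ NoCopy G (tt n)} : ℝ) * 2 ^ (tt n).choose 2 ≤
      2 ^ n * n ^ n * 2 ^ n.choose 2 := by exact_mod_cast h
  have n0 : (10 : ℝ) ^ 60 ≤ n := by exact_mod_cast hn
  have a : (2 : ℝ) ^ n * n ^ n * 2 ^ n ≤ 2 ^ (tt n).choose 2 := by
    rw [← Real.log_le_log_iff (by positivity) (by positivity), Real.log_mul (by positivity)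
      (by positivity), Real.log_mul (by positivity) (by positivity), Real.log_pow, Real.log_pow,
      Real.log_pow, choose_two]
    have b1 := log_le_aux n (le_trans (by norm_num) hn) (10 ^ 51) 17 (by norm_num)
    have b2 : (n : ℝ) / (2 * 10 ^ 23) + 1 ≤ tt n := by
      have : n + 2 * 10 ^ 23 ≤ 2 * 10 ^ 23 * tt n := by
        unfold tt; norm_num at hn ⊢; omega
      have : (n : ℝ) + 2 * 10 ^ 23 ≤ 2 * 10 ^ 23 * tt n := by exact_mod_cast this
      linarith
    have b3 : ((n : ℝ) / (2 * 10 ^ 23)) ^ 2 / 2 ≤ tt n * (tt n - 1) / 2 := by nlinarith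
    have b4 := Real.log_two_gt_d9
    have b5 := Real.log_two_lt_d9
    have b6 := mul_le_mul b3 (show (1 / 2 : ℝ) ≤ log 2 by linarith) (by norm_num)
      (le_trans (by positivity) b3)
    have b7 := mul_le_mul_of_nonneg_left b1 (show (0 : ℝ) ≤ n by positivity)
    have b8 : (n : ℝ) * log 2 ≤ n := by nlinarith
    push_cast at b7
    nlinarith
  rw [one_div, inv_pow, ← div_eq_inv_mul, le_div_iff₀ (by positivity)]
  have c := mul_le_mul_of_nonneg_left a
    (show (0 : ℝ) ≤ #{G : SimpleGraph (Fin n) | ¬ NoCopy G (tt n)} by positivity)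
  have d := c.trans h'
  have p : (0 : ℝ) < 2 ^ n * n ^ n := by positivity
  refine le_of_mul_le_mul_left ?_ p
  nlinarith

lemma atyp2 (n : ℕ) (hn : 10 ^ 60 ≤ n) :
    (#{G : SimpleGraph (Fin n) | ¬ Sep G {x | col n x = 0} (12 * 2000000 ^ 2 * tt n + 2)} : ℝ) ≤
      10 ^ 24 / n * 2 ^ n.choose 2 := by
  have h := count_Sep (V := Fin n) {x | col n x = 0} (12 * 2000000 ^ 2 * tt n + 2)
  rw [Fintype.card_fin] at h
  have g := col_ge n
  set m := #{x | col n x = 0}
  set k := 12 * 2000000 ^ 2 * tt n + 2 with hk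
  have n0 : (10 : ℝ) ^ 60 ≤ n := by exact_mod_cast hn
  have a1 : 10 * k ≤ m := by
    rw [hk]; unfold tt; norm_num at hn ⊢; omega
  have a2 : (8 : ℝ) ^ k ≤ (5 / 4) ^ m :=
    calc (8 : ℝ) ^ k ≤ ((5 / 4) ^ 10) ^ k := pow_le_pow_left₀ (by norm_num) (by norm_num) _
      _ ≤ _ := by rw [← pow_mul]; exact pow_le_pow_right₀ (by norm_num) a1
  have a3 : (5 / 4 : ℝ) ^ m * (5 / 4) ^ m * exp (m * (1 / 5)) ≤ 2 ^ m := by
    rw [Real.exp_nat_mul, ← mul_pow, ← mul_pow]
    refine pow_le_pow_left₀ (by positivity) ?_ _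
    have := Real.one_sub_le_exp_neg (1 / 5)
    rw [Real.exp_neg, le_inv_comm₀ (by norm_num) (exp_pos _)] at this
    norm_num at this ⊢
    linarith
  have a4 := Real.pow_div_factorial_le_exp (x := m * (1 / 5)) (by positivity) 3
  have a5 : (n : ℝ) / 4000000 ≤ m := by
    have : n ≤ 4000000 * m := by norm_num at hn; omega
    have : (n : ℝ) ≤ 4000000 * m := by exact_mod_cast this
    linarith
  have a6 : (n : ℝ) ^ 3 ≤ 10 ^ 24 * exp (m * (1 / 5)) := by
    have := pow_le_pow_left₀ (by positivity) a5 3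
    simp only [Nat.factorial] at a4
    norm_num at a4 this ⊢
    nlinarith
  have a7 : (n : ℝ) ^ 2 * ((5 / 4) ^ m * 8 ^ k) ≤ 10 ^ 24 / n * 2 ^ m := by
    rw [div_mul_eq_mul_div, le_div_iff₀ (by positivity)]
    have b1 := mul_le_mul_of_nonneg_left a2 (show (0 : ℝ) ≤ (5 / 4) ^ m by positivity)
    calc _ = (n : ℝ) ^ 3 * ((5 / 4) ^ m * 8 ^ k) := by ring
      _ ≤ 10 ^ 24 * exp (m * (1 / 5)) * ((5 / 4) ^ m * (5 / 4) ^ m) :=
        mul_le_mul a6 b1 (by positivity) (by positivity)
      _ = 10 ^ 24 * ((5 / 4 : ℝ) ^ m * (5 / 4) ^ m * exp (m * (1 / 5))) := by ring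
      _ ≤ _ := mul_le_mul_of_nonneg_left a3 (by positivity)
  have a8 := h.trans (mul_le_mul_of_nonneg_right a7 (by positivity))
  refine le_of_mul_le_mul_right ?_ (show (0 : ℝ) < 2 ^ m by positivity)
  refine a8.trans (le_of_eq (by ring))

end Pool.Agent.H.Har
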