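import Pool.Agent.H.MP_916a8b_co.D
import Pool.Agent.H.MP_916a8b_co.E

set_option autoImplicit false
open Finset Filter Real Topology
open scoped Classical

namespace Pool.Agent.H.Har

noncomputable def rr (s : ℕ) : J s → Lab (100 * s + 1) × Sub s (s / 10000) := (exists_r s).choose

abbrev Om (s : ℕ) := Finset (Fin (100 * s + 1) × J (s / 10000))

def PP (ω : (s : ℕ) → Om s) (W : Type) (K : SimpleGraph W) : Prop :=
  ∃ s, (typ s K Set.univ).Nonempty ∧ (s = 1 ∨ key (rr s) (typ s K Set.univ) ∈ ω s)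

def memS (ω : (s : ℕ) → Om s) {n : ℕ} (G : SimpleGraph (Fin n)) (B : Finset (Fin n)) : Prop :=
  ∃ s, #B = s ∧ (s = 1 ∨ key (rr s) (typ s G B) ∈ ω s)

lemma PP_iso (ω : (s : ℕ) → Om s) (W W' : Type) (K : SimpleGraph W) (K' : SimpleGraph W')
    (e : K ≃g K') : PP ω W K ↔ PP ω W' K' := by
  have h : K = K'.comap e := by ext x y; exact e.map_rel_iff.symm
  have : ∀ s, typ s K Set.univ = typ s K' Set.univ := fun s => by
    rw [h, typ_comap _ _ _ e.injective, Set.image_univ, e.surjective.range_eq]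
  simp only [PP, this]

lemma PP_induce (ω : (s : ℕ) → Om s) {n : ℕ} (G : SimpleGraph (Fin n)) (B : Finset (Fin n)) :
    PP ω _ (G.induce (B : Set (Fin n))) ↔ memS ω G B := by
  have : ∀ s, typ s (G.induce (B : Set (Fin n))) Set.univ = typ s G B := fun s => by
    have := typ_comap s G (fun x : (B : Set (Fin n)) => x.1) Subtype.val_injective Set.univ
    rw [Set.image_univ] at this
    exact this.trans (by rw [Subtype.range_coe])
  simp only [PP, memS, this]
  exact exists_congr fun s => and_congr_left fun _ => ⟨typ_card G B, typ_nonempty G B⟩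

lemma memS_one (ω : (s : ℕ) → Om s) {n : ℕ} (G : SimpleGraph (Fin n)) (B : Finset (Fin n))
    (h : #B = 1) : memS ω G B := ⟨1, h, Or.inl rfl⟩

lemma hc_memS (ω : (s : ℕ) → Om s) {n s : ℕ} (G : SimpleGraph (Fin n)) (h2 : 2 ≤ s) (hs : s ≤ n) :
    hc (memS ω G) (n - s + 1) = Ncnt (rr s) G (ω s) + Rc (memS ω G) s := by
  rw [hc_eq _ (memS_one ω G) h2 hs, Ncnt]
  congr 2
  refine filter_congr fun S _ => and_congr_right fun a => ⟨?_, fun b => ⟨s, a, Or.inr b⟩⟩
  rintro ⟨s', b, c⟩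
  obtain rfl : s' = s := by omega
  exact c.resolve_left (by omega)

lemma Rc_dep (ω ω' : (s : ℕ) → Om s) {n s : ℕ} (G : SimpleGraph (Fin n))
    (h : ∀ s' < s, ω s' = ω' s') : Rc (memS ω G) s = Rc (memS ω' G) s :=
  Rc_congr _ _ _ fun B hB => exists_congr fun s' => and_congr_right fun a => by
    rw [h s' (a ▸ hB)]

def Ev {n : ℕ} (G H : SimpleGraph (Fin n)) (s : ℕ) (ω : (s : ℕ) → Om s) : Prop :=
  n ≤ 100 * s ∧ s ≤ n →
    Ncnt (rr s) G (ω s) + Rc (memS ω G) s = Ncnt (rr s) H (ω s) + Rc (memS ω H) s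

lemma Ev_dep {n : ℕ} (G H : SimpleGraph (Fin n)) (s : ℕ) (ω ω' : (s : ℕ) → Om s)
    (h : ∀ s' ≤ s, ω s' = ω' s') : Ev G H s ω ↔ Ev G H s ω' := by
  unfold Ev
  rw [h s le_rfl, Rc_dep ω ω' G fun s' a => h s' a.le, Rc_dep ω ω' H fun s' a => h s' a.le]

lemma pair_bound {n : ℕ} (hn : 10 ^ 60 ≤ n) (G H : SimpleGraph (Fin n)) (hG : Typ G)
    (hH : ¬ Nonempty (G ≃g H)) (m : ℕ) (hm : n < m) (ω : (s : ℕ) → Om s) :
    Ex m (fun ω => ind (∀ s < m, Ev G H s ω)) ω ≤ (1 / 2) ^ (n.choose 2 + 2 * n) := by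
  refine (Ex_tri (Ev G H) (fun s => (1 / 2) ^ D' n s) (fun s => by positivity)
    (fun s k hk ω x => Ev_dep G H s _ _ fun s' a => Function.update_of_ne (by omega) _ _)
    (fun s ω => ?_) m ω).trans ?_
  · by_cases h : n ≤ 100 * s ∧ s ≤ n
    · obtain ⟨W, a, b⟩ := only hn h.1 h.2 hG hH
      have hw := (exists_r s).choose_spec n hn h.1 h.2 G (tt n) (by unfold tt; omega) hG.1 W a
      have := level (rr s) G H W a b (DD n s) (by have := DD_le n s h.2; omega) hw
        (Rc (memS ω G) s) (Rc (memS ω H) s)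
      rw [D', if_pos h]
      refine le_trans (av_mono fun x => ind_mono fun e => ?_) this
      have e' := e h
      rwa [Function.update_self,
        Rc_dep _ ω G fun s' a => Function.update_of_ne (by omega) _ _,
        Rc_dep _ ω H fun s' a => Function.update_of_ne (by omega) _ _] at e'
    · rw [D', if_neg h, pow_zero, ← av_const (X := Om s) 1]
      exact av_mono fun _ => ind_le_one _
  · rw [prod_pow_eq_pow_sum]
    exact pow_le_pow_of_le_one (by norm_num) (by norm_num) (sum_D n m hn hm)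

def Bad {n : ℕ} (ω : (s : ℕ) → Om s) (G H : SimpleGraph (Fin n)) : Prop :=
  10 ^ 60 ≤ n ∧ Typ G ∧ ¬ Nonempty (G ≃g H) ∧ ∀ s, Ev G H s ω

lemma exists_om : ∃ ω : (s : ℕ) → Om s, ∀ n,
    2 ^ n / 2 ^ n.choose 2 * ∑ G : SimpleGraph (Fin n), ∑ H, ind (Bad ω G H) ≤ 2 := by
  refine exists_lim (fun n ω => 2 ^ n / 2 ^ n.choose 2 *
    ∑ G : SimpleGraph (Fin n), ∑ H, ind (Bad ω G H))
    (fun n ω => mul_nonneg (by positivity)
      (sum_nonneg fun _ _ => sum_nonneg fun _ _ => ind_nonneg _)) (fun n ω ω' h => ?_)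
    fun n m ω hm => ?_
  · congr 1
    refine sum_congr rfl fun G _ => sum_congr rfl fun H _ => ind_congr ?_
    refine and_congr_right fun _ => and_congr_right fun _ => and_congr_right fun _ =>
      forall_congr' fun s => ?_
    by_cases hs : s ≤ n
    · exact Ev_dep G H s _ _ fun s' a => h s' (a.trans hs)
    · exact iff_of_true (fun a => absurd a.2 hs) fun a => absurd a.2 hs
  · rw [Ex_mul, Ex_sum]
    have h1 : ∀ G H : SimpleGraph (Fin n), Ex m (fun ω => ind (Bad ω G H)) ω ≤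
        (1 / 2) ^ (n.choose 2 + 2 * n) := by
      intro G H
      by_cases h : 10 ^ 60 ≤ n ∧ Typ G ∧ ¬ Nonempty (G ≃g H)
      · exact (Ex_mono m (fun ω => ind_mono fun a s _ => a.2.2.2 s) ω).trans
          (pair_bound h.1 G H h.2.1 h.2.2 m hm ω)
      · refine (Ex_mono m (g := fun ω => 0 * ind True) (fun ω => ?_) ω).trans ?_
        · rw [ind_neg fun a => h ⟨a.1, a.2.1, a.2.2.1⟩, zero_mul]
        · rw [Ex_mul, zero_mul]; positivity
    have h2 : ∑ G : SimpleGraph (Fin n), Ex m (fun ω => ∑ H, ind (Bad ω G H)) ω ≤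
        2 ^ n.choose 2 * (2 ^ n.choose 2 * (1 / 2) ^ (n.choose 2 + 2 * n)) := by
      refine (sum_le_sum (g := fun _ => (2 : ℝ) ^ n.choose 2 * (1 / 2) ^ (n.choose 2 + 2 * n))
        fun G _ => ?_).trans (by rw [sum_const, card_univ, card_graphs]; simp)
      rw [Ex_sum]
      exact (sum_le_sum fun H _ => h1 G H).trans (by rw [sum_const, card_univ, card_graphs]; simp)
    refine (mul_le_mul_of_nonneg_left h2 (by positivity)).trans (le_of_eq ?_)
    rw [pow_add, two_mul, pow_add]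
    simp only [one_div, inv_pow]
    field_simp

def Uq (ω : (s : ℕ) → Om s) {n : ℕ} (G : SimpleGraph (Fin n)) : Prop :=
  ∀ (m : ℕ) (H : SimpleGraph (Fin m)), hc (memS ω G) = hc (memS ω H) → Nonempty (G ≃g H)

lemma nonuq (ω : (s : ℕ) → Om s) {n : ℕ} (hn : 10 ^ 60 ≤ n) (G : SimpleGraph (Fin n))
    (hG : Typ G) (h : ¬ Uq ω G) : ∃ H, Bad ω G H := by
  simp only [Uq, not_forall] at h
  obtain ⟨m, H, a, b⟩ := h
  obtain rfl : m = n := by
    have a1 := hc_top _ (memS_one ω G)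
    have a2 := hc_top _ (memS_one ω H)
    by_contra hne
    rcases lt_or_gt_of_ne hne with c | c
    · rw [a, hc_zero _ _ c] at a1; omega
    · rw [← a, hc_zero _ _ c] at a2; omega
  refine ⟨H, hn, hG, b, fun s c => ?_⟩
  have h2 : 2 ≤ s := by norm_num at hn; omega
  rw [← hc_memS ω G h2 c.2, ← hc_memS ω H h2 c.2, a]

theorem main : ∃ ω : (s : ℕ) → Om s, Tendsto (fun n : ℕ =>
    (#{G : SimpleGraph (Fin n) | Uq ω G} : ℝ) / 2 ^ n.choose 2) atTop (𝓝 1) := by
  obtain ⟨ω, hω⟩ := exists_om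
  refine ⟨ω, ?_⟩
  have h0 : Tendsto (fun n : ℕ => 1 - ((1 / 2 : ℝ) ^ n + 10 ^ 24 / n + 2 * (1 / 2) ^ n)) atTop
      (𝓝 (1 - (0 + 0 + 2 * 0))) := by
    have a := tendsto_pow_atTop_nhds_zero_of_lt_one (r := (1 / 2 : ℝ)) (by norm_num) (by norm_num)
    exact tendsto_const_nhds.sub ((a.add (tendsto_const_div_atTop_nhds_zero_nat _)).add
      (a.const_mul 2))
  simp only [add_zero, mul_zero, sub_zero] at h0
  refine tendsto_of_tendsto_of_tendsto_of_le_of_le' h0 tendsto_const_nhds ?_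
    (Eventually.of_forall fun n => ?_)
  · filter_upwards [eventually_ge_atTop (10 ^ 60)] with n hn
    have h1 : ∀ G : SimpleGraph (Fin n), 1 ≤ ind (Uq ω G) + (ind (¬ NoCopy G (tt n)) +
        ind (¬ Sep G {x | col n x = 0} (12 * 2000000 ^ 2 * tt n + 2)) + ∑ H, ind (Bad ω G H)) := by
      intro G
      have b0 := ind_nonneg (Uq ω G)
      have b1 := ind_nonneg (¬ NoCopy G (tt n))
      have b2 := ind_nonneg (¬ Sep G {x | col n x = 0} (12 * 2000000 ^ 2 * tt n + 2))
      have b3 : 0 ≤ ∑ H, ind (Bad ω G H) := sum_nonneg fun _ _ => ind_nonneg _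
      by_cases c0 : Uq ω G
      · rw [ind_pos c0]; linarith
      by_cases c1 : NoCopy G (tt n)
      swap
      · rw [ind_pos c1]; linarith
      by_cases c2 : Sep G {x | col n x = 0} (12 * 2000000 ^ 2 * tt n + 2)
      swap
      · rw [ind_pos c2]; linarith
      obtain ⟨H, hH⟩ := nonuq ω hn G ⟨c1, c2⟩ c0
      have := single_le_sum (f := fun H => ind (Bad ω G H)) (fun _ _ => ind_nonneg _) (mem_univ H)
      simp only [ind_pos hH] at this
      linarith
    have h2 := sum_le_sum fun G (_ : G ∈ univ) => h1 G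
    rw [sum_add_distrib, sum_add_distrib, sum_add_distrib, sum_ind, sum_ind, sum_ind, sum_const,
      card_univ, card_graphs, Fintype.card_fin, nsmul_eq_mul, mul_one] at h2
    have a1 := atyp1 n hn
    have a2 := atyp2 n hn
    have a3 := hω n
    have a4 : ∑ G : SimpleGraph (Fin n), ∑ H, ind (Bad ω G H) ≤ 2 * (1 / 2) ^ n * 2 ^ n.choose 2 := by
      rw [div_mul_eq_mul_div, div_le_iff₀ (by positivity)] at a3
      rw [one_div, inv_pow, mul_right_comm, ← div_eq_mul_inv, le_div_iff₀ (by positivity)]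
      linarith
    rw [le_div_iff₀ (by positivity)]
    push_cast at h2
    linarith
  · rw [div_le_one (by positivity)]
    have := card_le_univ ({G : SimpleGraph (Fin n) | Uq ω G} : Finset _)
    rw [card_graphs, Fintype.card_fin] at this
    exact_mod_cast this

end Pool.Agent.H.Har
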